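import Pool.Agent.W78.GM.Defs2

/-!
Project GM (helper78), task GP-5: SIFT.
-/

set_option autoImplicit false

namespace Pool.Agent.W29.GM

open Finset Filter
open Pool.Agent.H376R2.MR Pool.Agent.H970R2.X Pool.Agent.W78.GM

theorem ball_empty {X : ℝ} (hX : X < 1) : ball X = ∅ := by
  rw [Finset.eq_empty_iff_forall_notMem]
  intro z hz
  obtain ⟨h1, h2⟩ := mem_ball.1 hz
  have : (1 : ℝ) ≤ nm z := by exact_mod_cast h1
  linarith

/-- a prime element does not divide a prime element of different norm -/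
theorem not_dvd_of_ne {p q : ℕ} (hp : p.Prime) (hq : q.Prime) (hpq : p ≠ q) {π ρ : GaussianInt}
    (hπ : nm π = p) (hρ : nm ρ = q) : ¬ π ∣ ρ := by
  intro h
  have h1 := nm_dvd h
  rw [hπ, hρ] at h1
  exact hpq ((Nat.prime_dvd_prime_iff_eq hp hq).1 h1)

theorem gp_dvd_mul_iff {p q : ℕ} (hp : p.Prime) (hp4 : p % 4 = 1) (hq : q.Prime)
    (hq4 : q % 4 = 1) (hpq : p ≠ q) (z : GaussianInt) : gp q ∣ gp p * z ↔ gp q ∣ z := by
  constructor
  · intro h
    rcases (prime_of_nm hq (gp_nm hq hq4)).dvd_or_dvd h with h1 | h1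
    · exact absurd h1 (not_dvd_of_ne hq hp (Ne.symm hpq) (gp_nm hq hq4) (gp_nm hp hp4))
    · exact h1
  · intro h
    exact h.trans (Dvd.intro_left _ rfl)

open scoped Classical in
/-- the number of `z` in the ball without prime divisors in `Q` -/
noncomputable def nsift (Q : Finset ℕ) (X : ℝ) : ℝ :=
  (((ball X).filter (fun z => ∀ q ∈ Q, ¬ gp q ∣ z)).card : ℝ)

theorem nsift_insert {Q : Finset ℕ} (hQ : ∀ q ∈ Q, q.Prime ∧ q % 4 = 1) {p : ℕ} (hp : p.Prime)
    (hp4 : p % 4 = 1) (hpQ : p ∉ Q) (X : ℝ) :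
    nsift (insert p Q) X = nsift Q X - nsift Q (X / p) := by
  classical
  have hπ := gp_nm hp hp4
  have hπ0 : gp p ≠ 0 := ne_zero_of_nm hp hπ
  have hp0 : (0 : ℝ) < p := by exact_mod_cast hp.pos
  unfold nsift
  have h1 : (ball X).filter (fun z => ∀ q ∈ Q, ¬ gp q ∣ z) =
      (ball X).filter (fun z => ∀ q ∈ insert p Q, ¬ gp q ∣ z) ∪
        ((ball (X / p)).filter (fun z => ∀ q ∈ Q, ¬ gp q ∣ z)).image (fun z => gp p * z) := by
    ext z
    simp only [mem_union, mem_filter, mem_image, Finset.forall_mem_insert]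
    constructor
    · rintro ⟨h1, h2⟩
      by_cases h3 : gp p ∣ z
      · right
        obtain ⟨z', rfl⟩ := h3
        refine ⟨z', ⟨?_, ?_⟩, rfl⟩
        · rw [mem_ball] at h1 ⊢
          rw [nm_mul, hπ] at h1
          refine ⟨?_, ?_⟩
          · rw [one_le_nm]
            rintro rfl
            simp at h1
          · rw [le_div_iff₀ hp0]
            have := h1.2
            push_cast at this
            linarith
        · intro q hq
          have := h2 q hq
          rwa [gp_dvd_mul_iff hp hp4 (hQ q hq).1 (hQ q hq).2 (fun h => hpQ (h ▸ hq))] at this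
      · left
        exact ⟨h1, h3, h2⟩
    · rintro (⟨h1, -, h2⟩ | ⟨z', ⟨h1, h2⟩, rfl⟩)
      · exact ⟨h1, h2⟩
      · refine ⟨?_, ?_⟩
        · rw [mem_ball] at h1 ⊢
          rw [nm_mul, hπ]
          refine ⟨Nat.one_le_iff_ne_zero.2 (mul_ne_zero hp.ne_zero (by omega)), ?_⟩
          have := h1.2
          rw [le_div_iff₀ hp0] at this
          push_cast
          linarith
        · intro q hq
          rw [gp_dvd_mul_iff hp hp4 (hQ q hq).1 (hQ q hq).2 (fun h => hpQ (h ▸ hq))]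
          exact h2 q hq
  have h2 : Disjoint ((ball X).filter (fun z => ∀ q ∈ insert p Q, ¬ gp q ∣ z))
      (((ball (X / p)).filter (fun z => ∀ q ∈ Q, ¬ gp q ∣ z)).image (fun z => gp p * z)) := by
    rw [Finset.disjoint_left]
    intro z hz hz'
    rw [mem_filter] at hz
    rw [mem_image] at hz'
    obtain ⟨z', -, rfl⟩ := hz'
    exact hz.2 p (mem_insert_self _ _) (Dvd.intro _ rfl)
  rw [h1, Finset.card_union_of_disjoint h2, Finset.card_image_of_injective _
    (fun a b hab => mul_left_cancel₀ hπ0 hab)]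
  push_cast
  ring

theorem sift_count (hL : S_LAT) (Q : Finset ℕ) (hQ : ∀ q ∈ Q, q.Prime ∧ q % 4 = 1) :
    ∃ C : ℝ, 0 ≤ C ∧ ∀ X : ℝ, 0 < X →
      |nsift Q X - Real.pi * (∏ q ∈ Q, (1 - 1 / (q : ℝ))) * X| ≤ C * Real.sqrt X := by
  classical
  obtain ⟨CL, hCL, hL, -⟩ := hL
  induction Q using Finset.induction_on with
  | empty =>
    refine ⟨CL + Real.pi, by positivity, fun X hX => ?_⟩
    have e : nsift ∅ X = ((ball X).card : ℝ) := by
      unfold nsift
      simp
    rw [e, Finset.prod_empty, mul_one]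
    have hs := Real.sqrt_nonneg X
    rcases le_or_gt 1 X with h1 | h1
    · refine (hL X h1).trans ?_
      nlinarith [Real.pi_pos]
    · rw [ball_empty h1]
      have h2 : X ≤ Real.sqrt X := by
        apply Real.le_sqrt_of_sq_le
        nlinarith
      rw [Finset.card_empty, Nat.cast_zero, zero_sub, abs_neg, abs_of_pos (by positivity)]
      nlinarith [Real.pi_pos]
  | insert p Q hpQ ih =>
    have hQ' : ∀ q ∈ Q, q.Prime ∧ q % 4 = 1 := fun q hq => hQ q (mem_insert_of_mem hq)
    obtain ⟨C, hC, h⟩ := ih hQ'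
    obtain ⟨hp, hp4⟩ := hQ p (mem_insert_self _ _)
    have hp0 : (0 : ℝ) < p := by exact_mod_cast hp.pos
    have hp1 : (1 : ℝ) ≤ p := by exact_mod_cast hp.one_lt.le
    refine ⟨C + C, by positivity, fun X hX => ?_⟩
    rw [nsift_insert hQ' hp hp4 hpQ, Finset.prod_insert hpQ]
    have h1 := h X hX
    have h2 := h (X / p) (by positivity)
    have h3 : Real.sqrt (X / p) ≤ Real.sqrt X := by
      apply Real.sqrt_le_sqrt
      exact div_le_self hX.le hp1
    have e : nsift Q X - nsift Q (X / p) -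
        Real.pi * ((1 - 1 / (p : ℝ)) * ∏ q ∈ Q, (1 - 1 / (q : ℝ))) * X =
        (nsift Q X - Real.pi * (∏ q ∈ Q, (1 - 1 / (q : ℝ))) * X) -
        (nsift Q (X / p) - Real.pi * (∏ q ∈ Q, (1 - 1 / (q : ℝ))) * (X / p)) := by
      field_simp
      ring
    rw [e]
    refine (abs_sub _ _).trans ?_
    nlinarith [mul_le_mul_of_nonneg_left h3 hC]

theorem sift_of : S_LAT → S_SIFT := by
  classical
  intro hL Q hQ
  obtain ⟨C, hC, h⟩ := sift_count hL Q hQ
  set P : ℝ := ∏ q ∈ Q, (1 - 1 / (q : ℝ)) with hP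
  have hP0 : 0 < P := by
    apply Finset.prod_pos
    intro q hq
    have : (1 : ℝ) < q := by exact_mod_cast (hQ q hq).1.one_lt
    rw [sub_pos, div_lt_one (by linarith)]
    exact this
  have hpi : 0 < 4 - Real.pi := by linarith [Real.pi_lt_four]
  refine ⟨(C / ((4 - Real.pi) * P)) ^ 2 + 1, fun X hX => ?_⟩
  have hX0 : 0 < X := by nlinarith [sq_nonneg (C / ((4 - Real.pi) * P))]
  have h1 := (abs_le.1 (h X hX0)).2
  have h2 : C / ((4 - Real.pi) * P) ≤ Real.sqrt X := by
    apply Real.le_sqrt_of_sq_le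
    linarith
  have h3 : C ≤ (4 - Real.pi) * P * Real.sqrt X := by
    rw [div_le_iff₀ (by positivity)] at h2
    linarith
  have h4 : Real.sqrt X * Real.sqrt X = X := Real.mul_self_sqrt hX0.le
  have h5 := mul_le_mul_of_nonneg_right h3 (Real.sqrt_nonneg X)
  have h6 : (4 - Real.pi) * P * Real.sqrt X * Real.sqrt X = (4 - Real.pi) * P * X := by
    rw [mul_assoc, h4]
  rw [h6] at h5
  unfold nsift at h1
  linarith

end Pool.Agent.W29.GM

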