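import Pool.Agent.W78.GM.Defs2
import Pool.Agent.W29.GM.Sift

/-!
Project GM (helper78), task GP-5: the excess of `n^2+1` is bounded for most pairs.
-/

set_option autoImplicit false

namespace Pool.Agent.W29.GM

open Finset Filter Topology
open Pool.Agent.W78.GM Pool.Agent.H376R2.MR Pool.Agent.H970R2.X

theorem exc_le {m z i : ℕ} (hm : m ≠ 0) (h : ∀ l : ℕ, l.Prime → z < l → ¬ l ^ 2 ∣ m)
    (h2 : ∀ l : ℕ, l.Prime → l ≤ z → ¬ l ^ (2 * i + 2) ∣ m) : exc m ≤ (z + 1) * (2 * i) := by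
  unfold exc
  rw [ArithmeticFunction.cardFactors_eq_sum_factorization,
    ArithmeticFunction.cardDistinctFactors_apply, ← List.card_toFinset]
  have e1 : m.factorization.sum (fun _ k => k) = ∑ p ∈ m.primeFactors, m.factorization p := rfl
  have e2 : m.primeFactorsList.toFinset.card = ∑ p ∈ m.primeFactors, 1 := by
    rw [← Finset.card_eq_sum_ones]
    rfl
  rw [e1, e2]
  have h3 : ∑ p ∈ m.primeFactors, m.factorization p ≤
      ∑ p ∈ m.primeFactors, (1 + if p ≤ z then 2 * i else 0) := by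
    apply sum_le_sum
    intro p hp
    have hpp := Nat.prime_of_mem_primeFactors hp
    split_ifs with h4
    · have := h2 p hpp h4
      rw [hpp.pow_dvd_iff_le_factorization hm] at this
      omega
    · have := h p hpp (by omega)
      rw [hpp.pow_dvd_iff_le_factorization hm] at this
      omega
  rw [sum_add_distrib] at h3
  have h4 : ∑ p ∈ m.primeFactors, (if p ≤ z then 2 * i else 0) ≤ (z + 1) * (2 * i) := by
    rw [← sum_filter]
    calc ∑ p ∈ m.primeFactors.filter (fun p => p ≤ z), 2 * i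
        ≤ ∑ p ∈ range (z + 1), 2 * i := by
          apply sum_le_sum_of_subset
          intro p hp
          rw [mem_filter] at hp
          rw [mem_range]
          omega
      _ = (z + 1) * (2 * i) := by rw [sum_const, card_range, smul_eq_mul]
  omega

theorem four_not_dvd {v : GaussianInt} (hv : prim v) : ¬ 4 ∣ nm v := by
  intro h
  have h1 : (4 : ℤ) ∣ v.re ^ 2 + v.im ^ 2 := by
    rw [← nm_cast]
    exact_mod_cast h
  unfold prim at hv
  rcases Int.even_or_odd v.re with h2 | h2 <;> rcases Int.even_or_odd v.im with h3 | h3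
  · have h4 : (2 : ℤ) ∣ (Int.gcd v.re v.im : ℤ) := Int.dvd_coe_gcd h2.two_dvd h3.two_dvd
    rw [hv] at h4
    norm_num at h4
  · obtain ⟨a, ha⟩ := h2
    obtain ⟨b, hb⟩ := h3
    rw [ha, hb] at h1
    obtain ⟨c, hc⟩ := h1
    have : (1 : ℤ) = 4 * (c - a ^ 2 - b ^ 2 - b) := by linarith
    omega
  · obtain ⟨a, ha⟩ := h2
    obtain ⟨b, hb⟩ := h3
    rw [ha, hb] at h1
    obtain ⟨c, hc⟩ := h1
    have : (1 : ℤ) = 4 * (c - a ^ 2 - b ^ 2 - a) := by linarith
    omega
  · obtain ⟨a, ha⟩ := h2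
    obtain ⟨b, hb⟩ := h3
    rw [ha, hb] at h1
    obtain ⟨c, hc⟩ := h1
    have : (2 : ℤ) = 4 * (c - a ^ 2 - a - b ^ 2 - b) := by linarith
    omega

/-- a high power of a prime dividing the norm of a primitive vector -/
theorem pow_dvd_nm {l i : ℕ} (hl : l.Prime) (hi : 2 ≤ i) {v : GaussianInt} (hv : prim v)
    (h : l ^ i ∣ nm v) : l % 4 = 1 ∧ (gp l ^ i ∣ v ∨ star (gp l) ^ i ∣ v) := by
  have hl1 : l % 4 = 1 := by
    rcases prime_dvd_nm_prim hl hv ((dvd_pow_self l (by omega)).trans h) with h1 | h1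
    · exfalso
      subst h1
      exact four_not_dvd hv ((pow_dvd_pow 2 hi).trans h)
    · exact h1
  have hl2 : l ≠ 2 := by rintro rfl; norm_num at hl1
  refine ⟨hl1, ?_⟩
  have hπ := gp_nm hl hl1
  have hπs : nm (star (gp l)) = l := by rw [nm_star]; exact hπ
  have hP := prime_of_nm hl hπ
  have hPs := prime_of_nm hl hπs
  have h1 : ((l ^ i : ℕ) : GaussianInt) ∣ v * star v := by
    rw [mul_star_self']
    exact Nat.cast_dvd_cast h
  have h2 : ((l ^ i : ℕ) : GaussianInt) = gp l ^ i * star (gp l) ^ i := by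
    rw [← mul_pow, mul_star_self', hπ]
    push_cast
    rfl
  rw [h2] at h1
  by_cases h3 : gp l ∣ star v
  · right
    have h4 : star (gp l) ∣ v := by
      obtain ⟨t, ht⟩ := h3
      refine ⟨star t, ?_⟩
      have := congrArg star ht
      rw [star_star, star_mul, mul_comm] at this
      exact this
    have h5 : ¬ star (gp l) ∣ star v := by
      rintro ⟨t, ht⟩
      have h6 : gp l ∣ v := by
        refine ⟨star t, ?_⟩
        have := congrArg star ht
        rw [star_star, star_mul, star_star, mul_comm] at this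
        exact this
      exact not_prim_of_both hl hl2 hπ h6 h4 hv
    exact hPs.pow_dvd_of_dvd_mul_right i h5 ((Dvd.intro_left _ rfl).trans h1)
  · left
    exact hP.pow_dvd_of_dvd_mul_right i h3 ((Dvd.intro _ rfl).trans h1)

open scoped Classical in
theorem card_dvd_le {ρ : GaussianInt} (hρ : ρ ≠ 0) (X : ℝ) :
    ((ball X).filter (fun z => ρ ∣ z)).card ≤ (ball (X / nm ρ)).card := by
  refine le_trans (card_le_card ?_) (card_image_le (f := fun z => ρ * z))
  intro z hz
  rw [mem_filter, mem_ball] at hz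
  obtain ⟨⟨h1, h2⟩, t, rfl⟩ := hz
  rw [mem_image]
  refine ⟨t, mem_ball.2 ⟨?_, ?_⟩, rfl⟩
  · rw [nm_mul] at h1
    by_contra hcon
    have : nm t = 0 := by omega
    rw [this, mul_zero] at h1
    omega
  · rw [le_div_iff₀ (nm_posR hρ)]
    rw [nm_mul] at h2
    push_cast at h2
    linarith

theorem card_ball_le {C : ℝ} (hC : 0 < C)
    (hball : ∀ X : ℝ, 1 ≤ X → |((ball X).card : ℝ) - Real.pi * X| ≤ C * Real.sqrt X)
    {R : ℝ} (hR : 0 ≤ R) : ((ball R).card : ℝ) ≤ (Real.pi + C) * R := by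
  rcases lt_or_ge R 1 with h | h
  · rw [ball_empty h, card_empty]
    push_cast
    have := Real.pi_pos
    positivity
  · have h6 := (abs_le.1 (hball R h)).2
    have h7 : Real.sqrt R ≤ R := by
      rw [Real.sqrt_le_left (by linarith)]
      nlinarith
    have h8 : C * Real.sqrt R ≤ C * R := mul_le_mul_of_nonneg_left h7 hC.le
    linarith

open scoped Classical in
/-- the vectors divisible by a high power of a small prime -/
noncomputable def Vz (z i : ℕ) (X : ℝ) : Finset GaussianInt :=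
  ((range (z + 1)).filter (fun l => l.Prime ∧ l % 4 = 1)).biUnion
    (fun l => (ball X).filter (fun v => gp l ^ i ∣ v) ∪ (ball X).filter (fun v => star (gp l) ^ i ∣ v))

theorem card_Vz {C : ℝ} (hC : 0 < C)
    (hball : ∀ X : ℝ, 1 ≤ X → |((ball X).card : ℝ) - Real.pi * X| ≤ C * Real.sqrt X)
    (z i : ℕ) {X : ℝ} (hX : 0 ≤ X) :
    ((Vz z i X).card : ℝ) ≤ (z + 1) * (2 * ((Real.pi + C) * (X / 5 ^ i))) := by
  classical
  unfold Vz
  have h1 : ∀ l ∈ (range (z + 1)).filter (fun l => l.Prime ∧ l % 4 = 1),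
      (((ball X).filter (fun v => gp l ^ i ∣ v) ∪
        (ball X).filter (fun v => star (gp l) ^ i ∣ v)).card : ℝ) ≤
        2 * ((Real.pi + C) * (X / 5 ^ i)) := by
    intro l hl
    rw [mem_filter] at hl
    obtain ⟨_, hl1, hl2⟩ := hl
    have hl5 : 5 ≤ l := by
      have := hl1.two_le
      have h3 : l ≠ 2 := by rintro rfl; omega
      have h4 : l ≠ 3 := by rintro rfl; omega
      have h5 : l ≠ 4 := by rintro rfl; omega
      omega
    have hl5R : (5 : ℝ) ≤ l := by exact_mod_cast hl5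
    have hπ := gp_nm hl1 hl2
    have hπs : nm (star (gp l)) = l := by rw [nm_star]; exact hπ
    have key : ∀ ρ : GaussianInt, nm ρ = l → (((ball X).filter (fun v => ρ ^ i ∣ v)).card : ℝ) ≤
        (Real.pi + C) * (X / 5 ^ i) := by
      intro ρ hρ
      have h2 := card_dvd_le (pow_ne_zero i (ne_zero_of_nm hl1 hρ)) X
      rw [nm_pow, hρ] at h2
      have h3 := card_ball_le hC hball (R := X / ((l ^ i : ℕ) : ℝ)) (by positivity)
      have h4 : X / ((l ^ i : ℕ) : ℝ) ≤ X / 5 ^ i := by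
        push_cast
        apply div_le_div_of_nonneg_left hX (by positivity)
        exact pow_le_pow_left₀ (by norm_num) hl5R i
      have h5 : (Real.pi + C) * (X / ((l ^ i : ℕ) : ℝ)) ≤ (Real.pi + C) * (X / 5 ^ i) :=
        mul_le_mul_of_nonneg_left h4 (by have := Real.pi_pos; positivity)
      have h6 : (((ball X).filter (fun v => ρ ^ i ∣ v)).card : ℝ) ≤
          ((ball (X / ((l ^ i : ℕ) : ℝ))).card : ℝ) := by exact_mod_cast h2
      linarith
    have h2 := card_union_le ((ball X).filter (fun v => gp l ^ i ∣ v))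
        ((ball X).filter (fun v => star (gp l) ^ i ∣ v))
    have h3 := key _ hπ
    have h4 := key _ hπs
    have h5 : (((ball X).filter (fun v => gp l ^ i ∣ v) ∪
        (ball X).filter (fun v => star (gp l) ^ i ∣ v)).card : ℝ) ≤
        (((ball X).filter (fun v => gp l ^ i ∣ v)).card : ℝ) +
        (((ball X).filter (fun v => star (gp l) ^ i ∣ v)).card : ℝ) := by exact_mod_cast h2
    linarith
  have h2 := card_biUnion_le (s := (range (z + 1)).filter (fun l => l.Prime ∧ l % 4 = 1))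
    (t := fun l => (ball X).filter (fun v => gp l ^ i ∣ v) ∪
      (ball X).filter (fun v => star (gp l) ^ i ∣ v))
  have h3 := sum_le_sum h1
  rw [sum_const, nsmul_eq_mul] at h3
  have h4 : (((range (z + 1)).filter (fun l => l.Prime ∧ l % 4 = 1)).card : ℝ) ≤ (z : ℝ) + 1 := by
    have := card_filter_le (range (z + 1)) (fun l => l.Prime ∧ l % 4 = 1)
    rw [card_range] at this
    exact_mod_cast this
  have h5 : 0 ≤ 2 * ((Real.pi + C) * (X / 5 ^ i)) := by have := Real.pi_pos; positivity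
  have h6 := mul_le_mul_of_nonneg_right h4 h5
  refine le_trans ?_ h6
  refine le_trans ?_ h3
  exact_mod_cast h2

theorem exct_of : S_SQ → S_VE → S_LAT → S_EXCT := by
  classical
  rintro ⟨CS, hCS, hSQ⟩ ⟨CV, hCV, hVE⟩ ⟨CL, hCL, hball, _⟩ δ hδ
  -- parameters
  obtain ⟨z, hz⟩ := exists_nat_ge (max 2 (2 * CS / δ))
  have hz2 : 2 ≤ z := by
    have : (2 : ℝ) ≤ z := (le_max_left _ _).trans hz
    exact_mod_cast this
  have hz3 : 2 * CS / δ ≤ z := (le_max_right _ _).trans hz
  have hz0 : (0 : ℝ) < z := by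
    have : (2 : ℝ) ≤ z := by exact_mod_cast hz2
    linarith
  set κ : ℝ := min 1 (δ / (4 * CV)) with hκ
  have hκ0 : 0 < κ := lt_min one_pos (by positivity)
  have hκ1 : κ ≤ 1 := min_le_left _ _
  have hκ2 : CV * κ ≤ δ / 4 := by
    have h1 : κ ≤ δ / (4 * CV) := min_le_right _ _
    calc CV * κ ≤ CV * (δ / (4 * CV)) := mul_le_mul_of_nonneg_left h1 hCV.le
      _ = δ / 4 := by field_simp
  set T : ℝ := CV * (((z : ℝ) + 1) * (2 * (Real.pi + CL))) / κ with hT
  have hpi := Real.pi_pos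
  have hT0 : 0 < T := by positivity
  obtain ⟨j, hj⟩ : ∃ j : ℕ, T / 5 ^ (j + 2) ≤ δ / 4 := by
    obtain ⟨j, hj⟩ := pow_unbounded_of_one_lt (T / (δ / 4)) (show (1 : ℝ) < 5 by norm_num)
    refine ⟨j, ?_⟩
    rw [div_le_iff₀ (by positivity)]
    rw [div_lt_iff₀ (by positivity)] at hj
    have : (5 : ℝ) ^ (j + 2) = 25 * 5 ^ j := by ring
    rw [this]
    have h5 : (0 : ℝ) < 5 ^ j := by positivity
    nlinarith
  obtain ⟨X₀, hX₀⟩ := hSQ z hz2
  refine ⟨(z + 1) * (2 * (j + 1)), max X₀ 1, fun X hX => ?_⟩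
  have hX1 : 1 ≤ X := (le_max_right _ _).trans hX
  have hX00 : X₀ ≤ X := (le_max_left _ _).trans hX
  have h1 := hX₀ X hX00
  have h2 := hVE κ X (Vz z (j + 2) X) hκ0 hκ1 hX1
  have hcov : (dedge X).filter (fun e => (z + 1) * (2 * (j + 1)) < exc (NN e)) ⊆
      (dedge X).filter (fun e => ∃ l : ℕ, l.Prime ∧ z < l ∧ l ^ 2 ∣ NN e) ∪
      (dedge X).filter (fun e => e.1 ∈ Vz z (j + 2) X ∨ e.2 ∈ Vz z (j + 2) X) := by
    intro e he
    rw [mem_filter] at he
    obtain ⟨he1, he2⟩ := he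
    rw [mem_union, mem_filter, mem_filter]
    by_contra hcon
    push Not at hcon
    obtain ⟨hc1, hc2⟩ := hcon
    have hc1' := hc1 he1
    have hc2' := hc2 he1
    have he1' := he1
    unfold dedge at he1'
    rw [mem_filter, mem_product, mem_pball, mem_pball] at he1'
    obtain ⟨⟨⟨hp1, hn1⟩, hp2, hn2⟩, _⟩ := he1'
    have hm1 : nm e.1 ≠ 0 := (nm_pos (prim_ne_zero hp1)).ne'
    have hm2 : nm e.2 ≠ 0 := (nm_pos (prim_ne_zero hp2)).ne'
    have hm : NN e ≠ 0 := by unfold NN; exact mul_ne_zero hm1 hm2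
    have h3 : exc (NN e) ≤ (z + 1) * (2 * (j + 1)) := by
      apply exc_le hm hc1'
      intro l hl hlz hdvd
      have h4 : l ^ (j + 2) ∣ nm e.1 ∨ l ^ (j + 2) ∣ nm e.2 := by
        rw [hl.pow_dvd_iff_le_factorization hm] at hdvd
        rw [hl.pow_dvd_iff_le_factorization hm1, hl.pow_dvd_iff_le_factorization hm2]
        unfold NN at hdvd
        rw [Nat.factorization_mul hm1 hm2, Finsupp.add_apply] at hdvd
        omega
      have key : ∀ v : GaussianInt, prim v → (nm v : ℝ) ≤ X → l ^ (j + 2) ∣ nm v →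
          v ∈ Vz z (j + 2) X := by
        intro v hv hvX hd
        obtain ⟨h5, h6⟩ := pow_dvd_nm hl (by omega) hv hd
        unfold Vz
        rw [mem_biUnion]
        refine ⟨l, mem_filter.2 ⟨mem_range.2 (by omega), hl, h5⟩, ?_⟩
        rw [mem_union, mem_filter, mem_filter]
        have h7 : v ∈ ball X := mem_ball.2 ⟨nm_pos (prim_ne_zero hv), hvX⟩
        rcases h6 with h6 | h6
        · exact Or.inl ⟨h7, h6⟩
        · exact Or.inr ⟨h7, h6⟩
      rcases h4 with h4 | h4
      · exact hc2'.1 (key _ hp1 hn1 h4)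
      · exact hc2'.2 (key _ hp2 hn2 h4)
    omega
  have h3 := (card_le_card hcov).trans (card_union_le _ _)
  have h4 : (((dedge X).filter (fun e => (z + 1) * (2 * (j + 1)) < exc (NN e))).card : ℝ) ≤
      (((dedge X).filter (fun e => ∃ l : ℕ, l.Prime ∧ z < l ∧ l ^ 2 ∣ NN e)).card : ℝ) +
      (((dedge X).filter (fun e => e.1 ∈ Vz z (j + 2) X ∨ e.2 ∈ Vz z (j + 2) X)).card : ℝ) := by
    exact_mod_cast h3
  have h5 : CS / z * X ≤ δ / 2 * X := by
    apply mul_le_mul_of_nonneg_right _ (by linarith)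
    rw [div_le_iff₀ hz0]
    rw [div_le_iff₀ hδ] at hz3
    linarith
  have h6 : CV * (κ * X + (((Vz z (j + 2) X) ∩ pball X).card : ℝ) / κ) ≤ δ / 2 * X := by
    have h7 : ((((Vz z (j + 2) X) ∩ pball X).card : ℕ) : ℝ) ≤ ((Vz z (j + 2) X).card : ℝ) := by
      exact_mod_cast card_le_card inter_subset_left
    have h8 := card_Vz hCL hball z (j + 2) (show 0 ≤ X by linarith)
    have h9 : CV * ((((Vz z (j + 2) X) ∩ pball X).card : ℝ) / κ) ≤
        CV * ((((z : ℝ) + 1) * (2 * ((Real.pi + CL) * (X / 5 ^ (j + 2))))) / κ) := by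
      apply mul_le_mul_of_nonneg_left _ hCV.le
      apply div_le_div_of_nonneg_right _ hκ0.le
      linarith
    have h10 : CV * ((((z : ℝ) + 1) * (2 * ((Real.pi + CL) * (X / 5 ^ (j + 2))))) / κ) =
        T / 5 ^ (j + 2) * X := by
      rw [hT]
      field_simp
    rw [h10] at h9
    have h11 : T / 5 ^ (j + 2) * X ≤ δ / 4 * X := mul_le_mul_of_nonneg_right hj (by linarith)
    have h12 : CV * κ * X ≤ δ / 4 * X := mul_le_mul_of_nonneg_right hκ2 (by linarith)
    rw [mul_add]
    linarith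
  linarith

end Pool.Agent.W29.GM

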