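import Pool.Agent.H970R2.X.Rap

/-!
Project GM (helper78), task GP-5: the upper bound in Mertens' theorem for the progression `1 mod q`.
-/

set_option autoImplicit false

namespace Pool.Agent.W29.GM

open Finset Filter Topology
open Pool.Agent.H376R2.MR Pool.Agent.H970R2.X

/-- the weights -/
noncomputable def wt (n : ℕ) : ℝ := 1 / (n * Real.log n)

theorem wt_pos {n : ℕ} (hn : 2 ≤ n) : 0 < wt n := by
  unfold wt
  have h1 : (2 : ℝ) ≤ n := by exact_mod_cast hn
  have h2 : 0 < Real.log n := Real.log_pos (by linarith)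
  positivity

theorem wt_succ_le {n : ℕ} (hn : 2 ≤ n) : wt (n + 1) ≤ wt n := by
  unfold wt
  have h1 : (2 : ℝ) ≤ n := by exact_mod_cast hn
  have h2 : 0 < Real.log n := Real.log_pos (by linarith)
  apply one_div_le_one_div_of_le (by positivity)
  push_cast
  apply mul_le_mul (by linarith) (Real.log_le_log (by linarith) (by linarith)) h2.le (by linarith)

theorem sum_wt_le (N : ℕ) (hN : 2 ≤ N) :
    ∑ n ∈ Icc 2 N, wt n ≤ Real.log (Real.log N) - Real.log (Real.log 2) + wt 2 := by
  induction N, hN using Nat.le_induction with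
  | base => simp
  | succ N hN ih =>
    rw [← Finset.insert_Icc_right_eq_Icc_add_one (by omega), Finset.sum_insert (by simp)]
    have h1 : (2 : ℝ) ≤ N := by exact_mod_cast hN
    have h2 : 0 < Real.log N := Real.log_pos (by linarith)
    have h3 : 0 < Real.log ((N : ℝ) + 1) := Real.log_pos (by linarith)
    have h4 : 1 / ((N : ℝ) + 1) ≤ Real.log ((N : ℝ) + 1) - Real.log N := by
      have h5 := Real.one_sub_inv_le_log_of_pos (x := ((N : ℝ) + 1) / N) (by positivity)
      rw [Real.log_div (by positivity) (by positivity), inv_div] at h5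
      have h6 : 1 - (N : ℝ) / (N + 1) = 1 / ((N : ℝ) + 1) := by field_simp; ring
      linarith
    have h7 : wt (N + 1) ≤ Real.log (Real.log ((N : ℝ) + 1)) - Real.log (Real.log N) := by
      have h5 := Real.one_sub_inv_le_log_of_pos
        (x := Real.log ((N : ℝ) + 1) / Real.log N) (by positivity)
      rw [Real.log_div h3.ne' h2.ne', inv_div] at h5
      refine le_trans ?_ h5
      have h6 : 1 - Real.log N / Real.log ((N : ℝ) + 1) =
          (Real.log ((N : ℝ) + 1) - Real.log N) / Real.log ((N : ℝ) + 1) := by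
        field_simp
      rw [h6]
      unfold wt
      push_cast
      rw [← div_div]
      exact div_le_div_of_nonneg_right h4 h3.le
    push_cast
    linarith

/-- an Abel summation inequality -/
theorem abel (a : ℕ → ℝ) (c C : ℝ)
    (h : ∀ n : ℕ, 2 ≤ n → ∑ k ∈ Icc 2 n, a k ≤ c * n + C) (N : ℕ) (hN : 2 ≤ N) :
    ∑ n ∈ Icc 2 N, a n * wt n + (c * N + C - ∑ k ∈ Icc 2 N, a k) * wt N ≤
      c * ∑ n ∈ Icc 2 N, wt n + (C + c) * wt 2 := by
  induction N, hN using Nat.le_induction with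
  | base => simp; ring_nf; exact le_refl _
  | succ N hN ih =>
    rw [← Finset.insert_Icc_right_eq_Icc_add_one (by omega), Finset.sum_insert (by simp),
      Finset.sum_insert (by simp), Finset.sum_insert (by simp)]
    have h1 := h N hN
    have h2 := wt_succ_le hN
    have h3 : 0 ≤ (c * N + C - ∑ k ∈ Icc 2 N, a k) * (wt N - wt (N + 1)) :=
      mul_nonneg (by linarith) (by linarith)
    push_cast
    nlinarith

theorem mert4 (ε : ℝ) (hε : 0 < ε) : ∃ C : ℝ, ∀ y : ℕ, 2 ≤ y →
    ∑ p ∈ (Icc 1 y).filter (fun p => p.Prime ∧ p % 4 = 1), 1 / (p : ℝ) ≤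
      (1 / 2 + ε) * Real.log (Real.log y) + C := by
  classical
  have h1 := xrap_th_tendsto 4 (by norm_num)
  have h2 : ((Nat.totient 4 : ℕ) : ℝ)⁻¹ < 1 / 2 + ε := by
    have : Nat.totient 4 = 2 := by decide
    rw [this]
    norm_num
    exact hε
  obtain ⟨x₀, hx₀⟩ := eventually_atTop.1 (h1.eventually (gt_mem_nhds h2))
  set c : ℝ := 1 / 2 + ε with hc
  set x₁ : ℝ := max x₀ 1 with hx₁
  set C₁ : ℝ := xrap_th 4 x₁ with hC₁
  have hmono : ∀ x y : ℝ, x ≤ y → xrap_th 4 x ≤ xrap_th 4 y := by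
    intro x y hxy
    unfold xrap_th
    apply Finset.sum_le_sum_of_subset_of_nonneg
    · intro p hp
      rw [mem_filter, mem_Ioc] at hp ⊢
      exact ⟨⟨hp.1.1, hp.1.2.trans (Nat.floor_le_floor hxy)⟩, hp.2⟩
    · intro p hp _
      exact Real.log_natCast_nonneg p
  have hC₁0 : 0 ≤ C₁ := by
    rw [hC₁]
    exact Finset.sum_nonneg fun p _ => Real.log_natCast_nonneg p
  have hth : ∀ x : ℝ, 0 ≤ x → xrap_th 4 x ≤ c * x + C₁ := by
    intro x hx
    rcases le_or_gt x₁ x with h | h
    · have h3 := hx₀ x ((le_max_left _ _).trans h)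
      have hxpos : 0 < x := lt_of_lt_of_le one_pos ((le_max_right _ _).trans h)
      rw [div_lt_iff₀ hxpos] at h3
      linarith
    · have h3 := hmono x x₁ h.le
      have : 0 ≤ c * x := by positivity
      linarith
  set a : ℕ → ℝ := fun p => if p.Prime ∧ p % 4 = 1 then Real.log p else 0 with ha
  have hA : ∀ n : ℕ, 2 ≤ n → ∑ k ∈ Icc 2 n, a k ≤ c * n + C₁ := by
    intro n hn
    refine le_trans (le_of_eq ?_) (hth n (Nat.cast_nonneg n))
    rw [ha, ← Finset.sum_filter]
    unfold xrap_th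
    rw [Nat.floor_natCast]
    refine Finset.sum_congr ?_ fun _ _ => rfl
    ext p
    rw [Finset.mem_filter, Finset.mem_filter, Finset.mem_Icc, Finset.mem_Ioc]
    have hP : P1 4 p ↔ p % 4 = 1 := by unfold P1; norm_num
    rw [hP]
    constructor
    · rintro ⟨⟨h3, h4⟩, h5, h6⟩
      exact ⟨⟨by omega, h4⟩, h5, h6⟩
    · rintro ⟨⟨h3, h4⟩, h5, h6⟩
      exact ⟨⟨h5.two_le, h4⟩, h5, h6⟩
  refine ⟨c * (wt 2 - Real.log (Real.log 2)) + (C₁ + c) * wt 2, fun y hy => ?_⟩
  have h3 := abel a c C₁ hA y hy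
  have h4 : 0 ≤ (c * y + C₁ - ∑ k ∈ Icc 2 y, a k) * wt y :=
    mul_nonneg (by have := hA y hy; linarith) (wt_pos hy).le
  have h5 := mul_le_mul_of_nonneg_left (sum_wt_le y hy) (show 0 ≤ c by positivity)
  have h6 : ∑ p ∈ (Icc 1 y).filter (fun p => p.Prime ∧ p % 4 = 1), 1 / (p : ℝ) =
      ∑ n ∈ Icc 2 y, a n * wt n := by
    rw [ha]
    simp only [ite_mul, zero_mul]
    rw [← Finset.sum_filter]
    have e : (Icc 1 y).filter (fun p => p.Prime ∧ p % 4 = 1) =
        (Icc 2 y).filter (fun p => p.Prime ∧ p % 4 = 1) := by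
      ext p
      simp only [mem_filter, mem_Icc]
      constructor
      · rintro ⟨⟨h3, h4⟩, h5, h6⟩
        exact ⟨⟨h5.two_le, h4⟩, h5, h6⟩
      · rintro ⟨⟨h3, h4⟩, h5, h6⟩
        exact ⟨⟨by omega, h4⟩, h5, h6⟩
    rw [e]
    refine Finset.sum_congr rfl fun p hp => ?_
    rw [mem_filter, mem_Icc] at hp
    have h7 : (2 : ℝ) ≤ p := by exact_mod_cast hp.1.1
    have h8 : 0 < Real.log p := Real.log_pos (by linarith)
    unfold wt
    field_simp
  rw [h6]
  linarith

end Pool.Agent.W29.GM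

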