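import Pool.Agent.W78.GM.Defs2

/-!
Project GM (helper78), task GP-5: MULT and VE.
-/

set_option autoImplicit false

namespace Pool.Agent.W29.GM

open Finset Filter
open Pool.Agent.H376R2.MR Pool.Agent.H970R2.X Pool.Agent.W78.GM

/-- the four units -/
def units4 : Finset GaussianInt := {⟨1, 0⟩, ⟨-1, 0⟩, ⟨0, 1⟩, ⟨0, -1⟩}

theorem mem_units4 {u : GaussianInt} (h : nm u = 1) : u ∈ units4 := by
  have h1 := nm_cast u
  rw [h] at h1
  push_cast at h1
  have hx := sq_nonneg u.re
  have hy := sq_nonneg u.im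
  have hx1 : u.re ≤ 1 ∧ -1 ≤ u.re := by constructor <;> nlinarith
  have hy1 : u.im ≤ 1 ∧ -1 ≤ u.im := by constructor <;> nlinarith
  obtain ⟨a, b⟩ := u
  simp only at h1 hx1 hy1
  have ha : a = -1 ∨ a = 0 ∨ a = 1 := by omega
  have hb : b = -1 ∨ b = 0 ∨ b = 1 := by omega
  unfold units4
  rcases ha with rfl | rfl | rfl <;> rcases hb with rfl | rfl | rfl <;>
    first
    | (exfalso; revert h1; norm_num; done)
    | simp

theorem prime_above {p : ℕ} (hp : p.Prime) (h4 : p = 2 ∨ p % 4 = 1) :
    ∃ π : GaussianInt, nm π = p := by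
  rcases h4 with h | h
  · exact ⟨⟨1, 1⟩, by rw [h]; rfl⟩
  · exact ⟨gp p, gp_nm hp h⟩

theorem star_dvd_two {π : GaussianInt} (h : nm π = 2) : star π ∣ π := by
  have h1 := nm_cast π
  rw [h] at h1
  push_cast at h1
  obtain ⟨a, b⟩ := π
  simp only at h1
  have ha : a = -1 ∨ a = 0 ∨ a = 1 := by
    have : a ≤ 1 ∧ -1 ≤ a := by constructor <;> nlinarith
    omega
  have hb : b = -1 ∨ b = 0 ∨ b = 1 := by
    have : b ≤ 1 ∧ -1 ≤ b := by constructor <;> nlinarith
    omega
  rcases ha with rfl | rfl | rfl <;> rcases hb with rfl | rfl | rfl <;>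
    first
    | (exfalso; revert h1; norm_num; done)
    | exact ⟨⟨0, 1⟩, by decide⟩
    | exact ⟨⟨0, -1⟩, by decide⟩

/-- two divisors of a primitive Gaussian integer with the same norm are associated -/
theorem assoc_of_nm {w a b : GaussianInt} (hw : prim w) (ha : a ∣ w) (hb : b ∣ w)
    (hab : nm a = nm b) : ∃ u : GaussianInt, nm u = 1 ∧ b = a * u := by
  have hw0 := prim_ne_zero hw
  have ha0 : a ≠ 0 := fun h => hw0 (by rw [h] at ha; exact zero_dvd_iff.1 ha)
  set g := EuclideanDomain.gcd a b with hg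
  obtain ⟨a', ha'⟩ := EuclideanDomain.gcd_dvd_left a b
  obtain ⟨b', hb'⟩ := EuclideanDomain.gcd_dvd_right a b
  rw [← hg] at ha' hb'
  have hg0 : g ≠ 0 := by
    intro h
    rw [h, zero_mul] at ha'
    exact ha0 ha'
  have hcop : IsCoprime a' b' := by
    have h1 := EuclideanDomain.gcd_eq_gcd_ab a b
    rw [← hg] at h1
    refine ⟨EuclideanDomain.gcdA a b, EuclideanDomain.gcdB a b, ?_⟩
    apply mul_left_cancel₀ hg0
    rw [mul_one]
    conv_rhs => rw [h1]
    conv_rhs => rw [show a * EuclideanDomain.gcdA a b = (g * a') * EuclideanDomain.gcdA a b by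
      rw [← ha'], show b * EuclideanDomain.gcdB a b = (g * b') * EuclideanDomain.gcdB a b by
      rw [← hb']]
    ring
  have hnm : nm a' = nm b' := by
    have h1 : nm g * nm a' = nm g * nm b' := by rw [← nm_mul, ← nm_mul, ← ha', ← hb', hab]
    exact Nat.eq_of_mul_eq_mul_left (nm_pos hg0) h1
  -- `a' b'` divides `w`
  have hprod : a' * b' ∣ w := by
    obtain ⟨w', hw'⟩ : g ∣ w := (Dvd.intro _ ha'.symm).trans ha
    have h1 : a' ∣ w' := by
      obtain ⟨t, ht⟩ := ha
      refine ⟨t, mul_left_cancel₀ hg0 ?_⟩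
      rw [← hw', ← mul_assoc, ← ha', ht]
    have h2 : b' ∣ w' := by
      obtain ⟨t, ht⟩ := hb
      refine ⟨t, mul_left_cancel₀ hg0 ?_⟩
      rw [← hw', ← mul_assoc, ← hb', ht]
    rw [hw']
    exact (hcop.mul_dvd h1 h2).trans (Dvd.intro_left _ rfl)
  have hprim := prim_of_dvd hw hprod
  have hone : nm a' = 1 := by
    by_contra hne
    obtain ⟨p, hp, hpd⟩ := Nat.exists_prime_and_dvd hne
    have hpa : prim a' := prim_of_dvd hprim (Dvd.intro _ rfl)
    have h4 := prime_dvd_nm_prim hp hpa hpd
    obtain ⟨π, hπ⟩ := prime_above hp h4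
    have hπs : nm (star π) = p := by rw [nm_star]; exact hπ
    have hunit : ∀ ρ : GaussianInt, nm ρ = p → ρ ∣ a' → ρ ∣ b' → False := by
      intro ρ hρ h1 h2
      have h3 := hcop.isUnit_of_dvd' h1 h2
      rw [isUnit_iff_nm, hρ] at h3
      exact hp.one_lt.ne' h3
    have hd1 := dvd_of_dvd_nm hp hπ hpd
    have hd2 := dvd_of_dvd_nm hp hπ (hnm ▸ hpd)
    have hmix : ∀ x y : GaussianInt, π ∣ x → star π ∣ y → (x * y = a' * b') →
        (star π ∣ π → star π ∣ x) → (∀ ρ : GaussianInt, nm ρ = p → ρ ∣ x → ρ ∣ y → False) →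
        False := by
      intro x y h1 h2 hxy h3 h5
      rcases h4 with h6 | h6
      · have h7 : star π ∣ π := star_dvd_two (by rw [hπ, h6])
        exact h5 (star π) hπs (h3 h7) h2
      · have hp2 : p ≠ 2 := by
          intro h; rw [h] at h6; omega
        refine not_prim_of_both hp hp2 hπ (z := a' * b') ?_ ?_ hprim
        · rw [← hxy]; exact h1.trans (Dvd.intro _ rfl)
        · rw [← hxy]; exact h2.trans (Dvd.intro_left _ rfl)
    rcases hd1 with h1 | h1 <;> rcases hd2 with h2 | h2
    · exact hunit π hπ h1 h2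
    · exact hmix a' b' h1 h2 rfl (fun h => h.trans h1) hunit
    · exact hmix b' a' h2 h1 (mul_comm _ _) (fun h => h.trans h2)
        (fun ρ hρ x y => hunit ρ hρ y x)
    · exact hunit (star π) hπs h1 h2
  have hone' : nm b' = 1 := by rw [← hnm]; exact hone
  refine ⟨star a' * b', by rw [nm_mul, nm_star, hone, hone'], ?_⟩
  have h1 : a' * star a' = 1 := by
    rw [mul_star_self', hone]; simp
  calc b = g * b' := hb'
    _ = g * (a' * star a') * b' := by rw [h1, mul_one]
    _ = a * (star a' * b') := by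
        conv_rhs => rw [ha']
        ring

theorem mult : S_MULT := by
  classical
  intro n S hS
  have hw : prim (⟨n, 1⟩ : GaussianInt) := by
    unfold prim
    simp
  have hnw : nm (⟨n, 1⟩ : GaussianInt) = (n ^ 2 + 1).natAbs := by
    unfold nm
    simp
  have hmul : ∀ e ∈ S, star e.1 * e.2 = (⟨n, 1⟩ : GaussianInt) := by
    intro e he
    rw [star_mul_eq, (hS e he).1, (hS e he).2]
  have hne : ∀ e ∈ S, e.1 ≠ 0 := by
    intro e he h0
    have h1 := hmul e he
    rw [h0, star_zero, zero_mul] at h1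
    have := congrArg Zsqrtd.im h1
    simp at this
  have hinj : ∀ e ∈ S, ∀ f ∈ S, e.1 = f.1 → e = f := by
    intro e he f hf hef
    refine Prod.ext hef ?_
    have h1 := hmul e he
    rw [← hmul f hf, hef] at h1
    exact mul_left_cancel₀ (star_ne_zero.2 (hne f hf)) h1
  have hpos : (n ^ 2 + 1).natAbs ≠ 0 := by
    have : n ^ 2 + 1 ≠ 0 := by positivity
    simpa using this
  refine Finset.card_le_mul_card_image_of_maps_to (f := fun e => nm e.1) ?_ 4 ?_
  · intro e he
    rw [Nat.mem_divisors]
    refine ⟨?_, hpos⟩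
    rw [← hnw, ← hmul e he, nm_mul, nm_star]
    exact Dvd.intro _ rfl
  · intro d _
    rcases (S.filter fun e => nm e.1 = d).eq_empty_or_nonempty with h | ⟨e₀, he₀⟩
    · rw [h]; simp
    · rw [mem_filter] at he₀
      have hsub : (S.filter fun e => nm e.1 = d).image (fun e => e.1) ⊆
          units4.image (fun u => e₀.1 * u) := by
        intro v hv
        rw [mem_image] at hv
        obtain ⟨e, he, rfl⟩ := hv
        rw [mem_filter] at he
        obtain ⟨u, hu, hbu⟩ := assoc_of_nm hw (a := star e₀.1) (b := star e.1)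
          (Dvd.intro _ (hmul e₀ he₀.1)) (Dvd.intro _ (hmul e he.1))
          (by rw [nm_star, nm_star, he₀.2, he.2])
        rw [mem_image]
        refine ⟨star u, mem_units4 (by rw [nm_star]; exact hu), ?_⟩
        have h1 := congrArg star hbu
        rw [star_star, star_mul, star_star] at h1
        rw [h1, mul_comm]
      have h1 : ((S.filter fun e => nm e.1 = d).image (fun e => e.1)).card =
          (S.filter fun e => nm e.1 = d).card := by
        apply Finset.card_image_of_injOn
        intro e he f hf hef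
        exact hinj e (mem_filter.1 he).1 f (mem_filter.1 hf).1 hef
      rw [← h1]
      refine (Finset.card_le_card hsub).trans (Finset.card_image_le.trans ?_)
      exact (Finset.card_insert_le _ _).trans (Nat.succ_le_succ ((Finset.card_insert_le _ _).trans
        (Nat.succ_le_succ ((Finset.card_insert_le _ _).trans (Nat.succ_le_succ
          (le_of_eq (Finset.card_singleton _)))))))

end Pool.Agent.W29.GM

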