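import Pool.Agent.W78.GM.Basic

/-!
Project GM (helper78), task GM-J: large sieve for sparse sets of frequencies.
-/

set_option autoImplicit false

namespace Pool.Agent.W29.GM

open Finset Filter
open Pool.Agent.H376R2.MR Pool.Agent.H970R2.X Pool.Agent.W78.GM

/-- duality -/
theorem dual {ι κ : Type*} (U : Finset ι) (s : Finset κ) (f : ι → κ → ℂ) (a : κ → ℂ) (B : ℝ)
    (h : ∀ c : ι → ℂ, ∑ z ∈ s, ‖∑ k ∈ U, c k * f k z‖ ^ 2 ≤ B * ∑ k ∈ U, ‖c k‖ ^ 2) (hB : 0 ≤ B) :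
    ∑ k ∈ U, ‖∑ z ∈ s, a z * f k z‖ ^ 2 ≤ B * ∑ z ∈ s, ‖a z‖ ^ 2 := by
  set D : ι → ℂ := fun k => ∑ z ∈ s, a z * f k z with hD
  set S : ℝ := ∑ k ∈ U, ‖D k‖ ^ 2 with hS
  have hS0 : 0 ≤ S := Finset.sum_nonneg fun k _ => by positivity
  have hA0 : 0 ≤ ∑ z ∈ s, ‖a z‖ ^ 2 := Finset.sum_nonneg fun z _ => by positivity
  set c : ι → ℂ := fun k => (starRingEnd ℂ) (D k) with hc
  have h1 : (S : ℂ) = ∑ z ∈ s, a z * ∑ k ∈ U, c k * f k z := by
    have e1 : (S : ℂ) = ∑ k ∈ U, c k * D k := by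
      rw [hS]
      push_cast
      refine Finset.sum_congr rfl fun k _ => ?_
      rw [hc]
      simp only
      rw [← Complex.normSq_eq_conj_mul_self, Complex.normSq_eq_norm_sq]
      push_cast
      rfl
    rw [e1]
    have e2 : ∑ k ∈ U, c k * D k = ∑ k ∈ U, ∑ z ∈ s, a z * (c k * f k z) := by
      refine Finset.sum_congr rfl fun k _ => ?_
      rw [hD]
      simp only
      rw [Finset.mul_sum]
      exact Finset.sum_congr rfl fun z _ => by ring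
    rw [e2, Finset.sum_comm]
    exact Finset.sum_congr rfl fun z _ => by rw [Finset.mul_sum]
  have h2 : S ≤ ∑ z ∈ s, ‖a z‖ * ‖∑ k ∈ U, c k * f k z‖ := by
    have e1 : S = ‖(S : ℂ)‖ := by
      rw [Complex.norm_real, Real.norm_of_nonneg hS0]
    rw [e1, h1]
    refine (norm_sum_le _ _).trans (le_of_eq ?_)
    exact Finset.sum_congr rfl fun z _ => norm_mul _ _
  have h3 := Finset.sum_mul_sq_le_sq_mul_sq s (fun z => ‖a z‖) (fun z => ‖∑ k ∈ U, c k * f k z‖)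
  have h4 := h c
  have h5 : ∑ k ∈ U, ‖c k‖ ^ 2 = S := by
    rw [hS]
    refine Finset.sum_congr rfl fun k _ => ?_
    rw [hc]
    simp only
    rw [RCLike.norm_conj]
  rw [h5] at h4
  have h6 : S ^ 2 ≤ (∑ z ∈ s, ‖a z‖ ^ 2) * (B * S) :=
    (pow_le_pow_left₀ hS0 h2 2).trans (h3.trans (mul_le_mul_of_nonneg_left h4 hA0))
  rcases hS0.eq_or_lt with h0 | h0
  · rw [← h0]; positivity
  · have h7 : S * S ≤ (B * ∑ z ∈ s, ‖a z‖ ^ 2) * S := by nlinarith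
    exact le_of_mul_le_mul_right h7 h0

/-- expansion of the square -/
theorem expand {b : Finset GaussianInt} (hb : ∀ z ∈ b, z ≠ 0) (U : Finset ℤ) (c : ℤ → ℂ) (E : ℝ)
    (hE0 : 0 ≤ E) (hE : ∀ k ∈ U, ∀ l ∈ U, k ≠ l → ‖∑ z ∈ b, ps (k - l) z‖ ≤ E) :
    ∑ z ∈ b, ‖∑ k ∈ U, c k * ps k z‖ ^ 2 ≤ ((b.card : ℝ) + U.card * E) * ∑ k ∈ U, ‖c k‖ ^ 2 := by
  have h1 : ((∑ z ∈ b, ‖∑ k ∈ U, c k * ps k z‖ ^ 2 : ℝ) : ℂ) =
      ∑ k ∈ U, ∑ l ∈ U, c k * (starRingEnd ℂ) (c l) * ∑ z ∈ b, ps (k - l) z := by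
    push_cast
    have e1 : ∀ z ∈ b, ((‖∑ k ∈ U, c k * ps k z‖ : ℝ) : ℂ) ^ 2 =
        ∑ k ∈ U, ∑ l ∈ U, c k * (starRingEnd ℂ) (c l) * ps (k - l) z := by
      intro z hz
      have e2 : ((‖∑ k ∈ U, c k * ps k z‖ : ℝ) : ℂ) ^ 2 =
          (∑ k ∈ U, c k * ps k z) * (starRingEnd ℂ) (∑ k ∈ U, c k * ps k z) := by
        rw [Complex.mul_conj, Complex.normSq_eq_norm_sq]
        push_cast
        rfl
      rw [e2, map_sum, Finset.sum_mul_sum]
      refine Finset.sum_congr rfl fun k _ => Finset.sum_congr rfl fun l _ => ?_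
      rw [map_mul, conj_ps (hb z hz), sub_eq_add_neg, ps_add (hb z hz)]
      ring
    rw [Finset.sum_congr rfl e1, Finset.sum_comm]
    refine Finset.sum_congr rfl fun k _ => ?_
    rw [Finset.sum_comm]
    exact Finset.sum_congr rfl fun l _ => by rw [Finset.mul_sum]
  have h0 : 0 ≤ ∑ z ∈ b, ‖∑ k ∈ U, c k * ps k z‖ ^ 2 :=
    Finset.sum_nonneg fun z _ => by positivity
  have h2 : ∑ z ∈ b, ‖∑ k ∈ U, c k * ps k z‖ ^ 2 ≤
      ∑ k ∈ U, ∑ l ∈ U, ‖c k‖ * ‖c l‖ * (E + if k = l then (b.card : ℝ) else 0) := by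
    have e1 : ∑ z ∈ b, ‖∑ k ∈ U, c k * ps k z‖ ^ 2 =
        ‖((∑ z ∈ b, ‖∑ k ∈ U, c k * ps k z‖ ^ 2 : ℝ) : ℂ)‖ := by
      rw [Complex.norm_real, Real.norm_of_nonneg h0]
    rw [e1, h1]
    refine (norm_sum_le _ _).trans (Finset.sum_le_sum fun k hk => ?_)
    refine (norm_sum_le _ _).trans (Finset.sum_le_sum fun l hl => ?_)
    rw [norm_mul, norm_mul, RCLike.norm_conj]
    refine mul_le_mul_of_nonneg_left ?_ (by positivity)
    by_cases hkl : k = l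
    · rw [if_pos hkl, hkl, sub_self]
      have : ‖∑ z ∈ b, ps 0 z‖ ≤ (b.card : ℝ) := by
        refine (norm_sum_le _ _).trans ?_
        refine (Finset.sum_le_card_nsmul _ _ 1 fun z _ => norm_ps_le z 0).trans ?_
        simp
      linarith
    · rw [if_neg hkl, add_zero]
      exact hE k hk l hl hkl
  refine h2.trans ?_
  have h3 : ∑ k ∈ U, ∑ l ∈ U, ‖c k‖ * ‖c l‖ * (E + if k = l then (b.card : ℝ) else 0) =
      E * (∑ k ∈ U, ‖c k‖) ^ 2 + (b.card : ℝ) * ∑ k ∈ U, ‖c k‖ ^ 2 := by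
    have e1 : ∀ k ∈ U, ∑ l ∈ U, ‖c k‖ * ‖c l‖ * (E + if k = l then (b.card : ℝ) else 0) =
        E * (‖c k‖ * ∑ l ∈ U, ‖c l‖) + (b.card : ℝ) * ‖c k‖ ^ 2 := by
      intro k hk
      simp only [mul_add, Finset.sum_add_distrib, mul_ite, mul_zero, Finset.sum_ite_eq, hk,
        if_true]
      rw [Finset.mul_sum, Finset.mul_sum]
      congr 1
      · exact Finset.sum_congr rfl fun l _ => by ring
      · ring
    rw [Finset.sum_congr rfl e1, Finset.sum_add_distrib, ← Finset.mul_sum, ← Finset.mul_sum,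
      ← Finset.sum_mul, sq]
  rw [h3]
  have h4 : (∑ k ∈ U, ‖c k‖) ^ 2 ≤ (U.card : ℝ) * ∑ k ∈ U, ‖c k‖ ^ 2 :=
    sq_sum_le_card_mul_sum_sq
  have h5 := mul_le_mul_of_nonneg_left h4 hE0
  nlinarith

/-- Task GM-J. -/
theorem sparse_of : S_ANG → S_LAT → S_SPARSE := by
  rintro hA ⟨CL, hCL, hL, -⟩
  obtain ⟨η, hη, CA, hCA, hA⟩ := hA 2
  refine ⟨η / 2, by positivity, Real.pi * Real.exp 2 + CL * Real.exp 2 + CA * Real.exp 2,
    by positivity, 1, ?_⟩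
  intro Z hZ U hU hcard s a hs
  have he : 1 ≤ Real.exp 2 := Real.one_le_exp (by norm_num)
  have hZ0 : 0 < Z := by linarith
  have hX : 1 ≤ Real.exp 2 * Z := by nlinarith
  have hsb : s ⊆ ball (Real.exp 2 * Z) := fun z hz => mem_ball.2 (hs z hz)
  unfold DPG
  refine dual U s ps a _ ?_ (by positivity)
  intro c
  set E : ℝ := CA * (Real.exp 2 * Z) ^ (1 - η) with hE
  have hE0 : 0 ≤ E := by positivity
  have h1 : ∑ z ∈ s, ‖∑ k ∈ U, c k * ps k z‖ ^ 2 ≤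
      ∑ z ∈ ball (Real.exp 2 * Z), ‖∑ k ∈ U, c k * ps k z‖ ^ 2 :=
    Finset.sum_le_sum_of_subset_of_nonneg hsb fun _ _ _ => by positivity
  have h2 := expand (b := ball (Real.exp 2 * Z)) (fun z hz => one_le_nm.1 (mem_ball.1 hz).1) U c E
    hE0 (by
      intro k hk l hl hkl
      refine hA _ (k - l) hX (sub_ne_zero.2 hkl) ?_
      have e1 := hU k hk
      have e2 := hU l hl
      have e3 : |((k - l : ℤ) : ℝ)| ≤ |(k : ℝ)| + |(l : ℝ)| := by
        push_cast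
        exact abs_sub _ _
      have e4 : Z ^ (4 / 3 : ℝ) ≤ Z ^ (2 : ℝ) :=
        Real.rpow_le_rpow_of_exponent_le hZ (by norm_num)
      rw [Real.rpow_two] at e4
      have e5 : 2 ≤ Real.exp 2 := by
        have := Real.add_one_le_exp (2 : ℝ)
        linarith
      have e6 : (Real.exp 2 * Z) ^ 2 = Real.exp 2 * Real.exp 2 * Z ^ 2 := by ring
      rw [e6]
      nlinarith [sq_nonneg Z, mul_le_mul e5 e5 (by norm_num) (by positivity)])
  refine h1.trans (h2.trans (mul_le_mul_of_nonneg_right ?_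
    (Finset.sum_nonneg fun k _ => by positivity)))
  have h3 : ((ball (Real.exp 2 * Z)).card : ℝ) ≤ (Real.pi * Real.exp 2 + CL * Real.exp 2) * Z := by
    have e1 := (abs_le.1 (hL _ hX)).2
    have e2 : Real.sqrt (Real.exp 2 * Z) ≤ Real.exp 2 * Z := by
      rw [Real.sqrt_le_left (by positivity)]
      nlinarith
    nlinarith [mul_le_mul_of_nonneg_left e2 hCL.le]
  have h4 : (U.card : ℝ) * E ≤ CA * Real.exp 2 * Z := by
    have e1 : (Real.exp 2 * Z) ^ (1 - η) = Real.exp 2 ^ (1 - η) * Z ^ (1 - η) :=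
      Real.mul_rpow (by positivity) hZ0.le
    have e2 : Real.exp 2 ^ (1 - η) ≤ Real.exp 2 := by
      conv_rhs => rw [← Real.rpow_one (Real.exp 2)]
      exact Real.rpow_le_rpow_of_exponent_le he (by linarith)
    have e3 : Z ^ (η / 2) * Z ^ (1 - η) ≤ Z := by
      rw [← Real.rpow_add hZ0]
      conv_rhs => rw [← Real.rpow_one Z]
      exact Real.rpow_le_rpow_of_exponent_le hZ (by linarith)
    have e4 : (U.card : ℝ) * Z ^ (1 - η) ≤ Z :=
      (mul_le_mul_of_nonneg_right hcard (by positivity)).trans e3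
    rw [hE, e1]
    calc (U.card : ℝ) * (CA * (Real.exp 2 ^ (1 - η) * Z ^ (1 - η)))
        = CA * Real.exp 2 ^ (1 - η) * ((U.card : ℝ) * Z ^ (1 - η)) := by ring
      _ ≤ CA * Real.exp 2 * Z := by
          refine mul_le_mul (mul_le_mul_of_nonneg_left e2 hCA.le) e4 (by positivity)
            (by positivity)
  linarith

end Pool.Agent.W29.GM

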