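import Pool.Agent.W78.GM.Defs2
import Pool.Agent.W29.GM.Mert4
import Pool.Agent.W64.GM.Selh

/-!
Project GM (helper78), task GP-5: a typical norm has at most `(1+ε) log log X` prime factors.
-/

set_option autoImplicit false

namespace Pool.Agent.W29.GM

open Finset Filter Topology
open Pool.Agent.W78.GM Pool.Agent.H376R2.MR Pool.Agent.H970R2.X

/-- the primes `≡ 1 mod 4` up to `y` -/
def S4 (y : ℕ) : Finset ℕ := (Icc 1 y).filter (fun p => p.Prime ∧ p % 4 = 1)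

theorem mem_S4 {y p : ℕ} : p ∈ S4 y ↔ p ≤ y ∧ p.Prime ∧ p % 4 = 1 := by
  unfold S4
  rw [mem_filter, mem_Icc]
  constructor
  · rintro ⟨⟨_, h2⟩, h3⟩; exact ⟨h2, h3⟩
  · rintro ⟨h2, h3⟩; exact ⟨⟨h3.1.one_lt.le, h2⟩, h3⟩

/-- few large prime factors -/
theorem large_card {m y k : ℕ} (hm : m ≠ 0) (h : m < (y + 1) ^ k) :
    (m.primeFactors.filter (fun p => y < p)).card < k := by
  by_contra hcon
  push Not at hcon
  have h1 : (y + 1) ^ (m.primeFactors.filter (fun p => y < p)).card ≤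
      ∏ p ∈ m.primeFactors.filter (fun p => y < p), p := by
    apply Finset.pow_card_le_prod
    intro p hp
    exact (mem_filter.1 hp).2
  have h2 : ∏ p ∈ m.primeFactors.filter (fun p => y < p), p ∣ m :=
    (Finset.prod_dvd_prod_of_subset _ _ _ (filter_subset _ _)).trans (Nat.prod_primeFactors_dvd m)
  have h3 := Nat.le_of_dvd (Nat.pos_of_ne_zero hm) h2
  have h4 : (y + 1) ^ k ≤ (y + 1) ^ (m.primeFactors.filter (fun p => y < p)).card :=
    Nat.pow_le_pow_right (by omega) hcon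
  omega

open scoped Classical in
theorem omega_le {z : GaussianInt} (hz : prim z) (y : ℕ) (h : nm z < (y + 1) ^ 5) :
    (nm z).primeFactors.card ≤ ((S4 y).filter (fun p => gp p ∣ z)).card +
      ((S4 y).filter (fun p => star (gp p) ∣ z)).card + 5 := by
  have hsub : (nm z).primeFactors ⊆ ({2} ∪ ((S4 y).filter (fun p => gp p ∣ z) ∪
      (S4 y).filter (fun p => star (gp p) ∣ z))) ∪
      (nm z).primeFactors.filter (fun p => y < p) := by
    intro p hp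
    rw [Nat.mem_primeFactors] at hp
    obtain ⟨hpp, hpd, hp0⟩ := hp
    rw [mem_union, mem_union, mem_union, mem_filter, mem_filter, mem_filter]
    rcases lt_or_ge y p with h1 | h1
    · right
      exact ⟨Nat.mem_primeFactors.2 ⟨hpp, hpd, hp0⟩, h1⟩
    · left
      rcases prime_dvd_nm_prim hpp hz hpd with h2 | h2
      · left; exact mem_singleton.2 h2
      · right
        rcases dvd_of_dvd_nm hpp (gp_nm hpp h2) hpd with h3 | h3
        · left; exact ⟨mem_S4.2 ⟨h1, hpp, h2⟩, h3⟩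
        · right; exact ⟨mem_S4.2 ⟨h1, hpp, h2⟩, h3⟩
  have h1 := card_le_card hsub
  have h2 := card_union_le ({2} ∪ ((S4 y).filter (fun p => gp p ∣ z) ∪
      (S4 y).filter (fun p => star (gp p) ∣ z))) ((nm z).primeFactors.filter (fun p => y < p))
  have h3 := card_union_le ({2} : Finset ℕ) ((S4 y).filter (fun p => gp p ∣ z) ∪
      (S4 y).filter (fun p => star (gp p) ∣ z))
  have h4 := card_union_le ((S4 y).filter (fun p => gp p ∣ z))
      ((S4 y).filter (fun p => star (gp p) ∣ z))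
  have h5 : ((nm z).primeFactors.filter (fun p => y < p)).card < 5 :=
    large_card (nm_pos (prim_ne_zero hz)).ne' h
  rw [card_singleton] at h3
  omega

open scoped Classical in
/-- the exceptional elements of one window -/
theorem win_card {C : ℝ} (hTK : ∀ (S : Finset ℕ) (ϖ : ℕ → GaussianInt) (Q Y : ℝ),
    (∀ p ∈ S, p.Prime ∧ p % 4 = 1 ∧ (p : ℝ) ≤ Q ∧ nm (ϖ p) = p) → 1 ≤ ∑ p ∈ S, 1 / (p : ℝ) →
    Q ^ 4 ≤ Y →
    ∑ z ∈ win Y, (((S.filter (fun p => ϖ p ∣ z)).card : ℝ) - ∑ p ∈ S, 1 / (p : ℝ)) ^ 2 / (nm z : ℝ)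
      ≤ C * ∑ p ∈ S, 1 / (p : ℝ))
    (y : ℕ) (Y X D : ℝ) (hX : 0 < X) (hD : 0 < D) (hy : (y : ℝ) ^ 4 ≤ Y)
    (hW : 1 ≤ ∑ p ∈ S4 y, 1 / (p : ℝ)) (bad : Finset GaussianInt)
    (hbad : ∀ z ∈ bad, z ∈ win Y ∧ (nm z : ℝ) ≤ X ∧ 2 * (∑ p ∈ S4 y, 1 / (p : ℝ)) + 2 * D ≤
      (((S4 y).filter (fun p => gp p ∣ z)).card : ℝ) +
      (((S4 y).filter (fun p => star (gp p) ∣ z)).card : ℝ)) :
    (bad.card : ℝ) ≤ C * (∑ p ∈ S4 y, 1 / (p : ℝ)) * X / D ^ 2 := by
  set W : ℝ := ∑ p ∈ S4 y, 1 / (p : ℝ) with hWdef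
  have h1 := hTK (S4 y) gp y Y (fun p hp => by
    obtain ⟨h1, h2, h3⟩ := mem_S4.1 hp
    exact ⟨h2, h3, by exact_mod_cast h1, gp_nm h2 h3⟩) hW hy
  have h2 := hTK (S4 y) (fun p => star (gp p)) y Y (fun p hp => by
    obtain ⟨h1, h2, h3⟩ := mem_S4.1 hp
    exact ⟨h2, h3, by exact_mod_cast h1, by rw [nm_star]; exact gp_nm h2 h3⟩) hW hy
  rw [← hWdef] at h1 h2
  have h3 : ∑ z ∈ bad, 2 * D ^ 2 / X ≤
      ∑ z ∈ win Y, ((((S4 y).filter (fun p => gp p ∣ z)).card : ℝ) - W) ^ 2 / (nm z : ℝ) +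
      ∑ z ∈ win Y, ((((S4 y).filter (fun p => star (gp p) ∣ z)).card : ℝ) - W) ^ 2 / (nm z : ℝ) := by
    rw [← sum_add_distrib]
    have h4 : bad ⊆ win Y := fun z hz => (hbad z hz).1
    refine le_trans (sum_le_sum fun z hz => ?_) (sum_le_sum_of_subset_of_nonneg h4 fun z _ _ => by
      positivity)
    obtain ⟨h5, h6, h7⟩ := hbad z hz
    have h8 : (1 : ℝ) ≤ nm z := by exact_mod_cast (mem_win.1 h5).1
    rw [← add_div]
    set a : ℝ := (((S4 y).filter (fun p => gp p ∣ z)).card : ℝ)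
    set b : ℝ := (((S4 y).filter (fun p => star (gp p) ∣ z)).card : ℝ)
    have h9 : 2 * D ^ 2 ≤ (a - W) ^ 2 + (b - W) ^ 2 := by
      have h10 : 2 * D ≤ (a - W) + (b - W) := by linarith
      nlinarith [sq_nonneg ((a - W) - (b - W)), mul_self_nonneg ((a - W) + (b - W) - 2 * D)]
    exact div_le_div₀ (by positivity) h9 (by positivity) h6
  rw [sum_const, nsmul_eq_mul] at h3
  have h4 : (bad.card : ℝ) * (2 * D ^ 2 / X) ≤ C * W + C * W := by linarith
  have h5 : (bad.card : ℝ) * (2 * D ^ 2 / X) = 2 * (bad.card * (D ^ 2 / X)) := by ring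
  rw [h5] at h4
  have h6 : (bad.card : ℝ) * (D ^ 2 / X) ≤ C * W := by linarith
  rw [le_div_iff₀ (by positivity)]
  rw [mul_div_assoc', div_le_iff₀ hX] at h6
  exact h6

theorem ev_typ (J : ℕ) (L₀ L₁ : ℝ) : ∃ X₀ : ℝ, ∀ X : ℝ, X₀ ≤ X → 1 ≤ X ∧
    L₀ ≤ Real.log (Real.log X) ∧ Real.exp (4 * ((J : ℝ) + 1)) ≤ X ∧
    Real.exp (2 + 4 * (J : ℝ)) ≤ X ^ (1 / 5 : ℝ) ∧ 3 ≤ ⌊X ^ (1 / 5 : ℝ)⌋₊ ∧
    L₁ ≤ Real.log (Real.log ⌊X ^ (1 / 5 : ℝ)⌋₊) := by
  have h1 : Tendsto (fun X : ℝ => Real.log (Real.log X)) atTop atTop :=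
    Real.tendsto_log_atTop.comp Real.tendsto_log_atTop
  have h2 : Tendsto (fun X : ℝ => X ^ (1 / 5 : ℝ)) atTop atTop :=
    tendsto_rpow_atTop (by norm_num)
  have h3 : Tendsto (fun X : ℝ => ⌊X ^ (1 / 5 : ℝ)⌋₊) atTop atTop :=
    tendsto_nat_floor_atTop.comp h2
  have h4 : Tendsto (fun X : ℝ => Real.log (Real.log (⌊X ^ (1 / 5 : ℝ)⌋₊ : ℝ))) atTop atTop :=
    h1.comp (tendsto_natCast_atTop_atTop.comp h3)
  have h5 : ∀ᶠ X : ℝ in atTop, 1 ≤ X ∧
    L₀ ≤ Real.log (Real.log X) ∧ Real.exp (4 * ((J : ℝ) + 1)) ≤ X ∧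
    Real.exp (2 + 4 * (J : ℝ)) ≤ X ^ (1 / 5 : ℝ) ∧ 3 ≤ ⌊X ^ (1 / 5 : ℝ)⌋₊ ∧
    L₁ ≤ Real.log (Real.log ⌊X ^ (1 / 5 : ℝ)⌋₊) := by
    filter_upwards [eventually_ge_atTop 1, h1.eventually_ge_atTop L₀,
      eventually_ge_atTop (Real.exp (4 * ((J : ℝ) + 1))),
      h2.eventually_ge_atTop (Real.exp (2 + 4 * (J : ℝ))), h3.eventually_ge_atTop 3,
      h4.eventually_ge_atTop L₁] with X a b c d e f
    exact ⟨a, b, c, d, e, f⟩
  exact eventually_atTop.1 h5

theorem typ_of : S_LAT → S_TK → S_TYP := by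
  classical
  rintro ⟨CL, hCL, hball, _⟩ ⟨CT, hCT, hTK⟩ ε δ hε hδ
  obtain ⟨C1, hC1⟩ := mert4 (ε / 8) (by positivity)
  obtain ⟨C2, hC2⟩ := Pool.Agent.W64.GM.mert1
  -- the number of windows
  obtain ⟨J, hJ⟩ : ∃ J : ℕ, (Real.pi + CL) * Real.exp (-(4 * ((J : ℝ) + 1))) ≤ δ / 2 := by
    have h1 : Tendsto (fun J : ℕ => (Real.pi + CL) * Real.exp (-(4 * ((J : ℝ) + 1)))) atTop
        (𝓝 ((Real.pi + CL) * 0)) := by
      apply Tendsto.const_mul
      apply Real.tendsto_exp_neg_atTop_nhds_zero.comp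
      apply Tendsto.const_mul_atTop (by norm_num)
      exact tendsto_atTop_add_const_right _ _ tendsto_natCast_atTop_atTop
    rw [mul_zero] at h1
    obtain ⟨J, hJ⟩ := (h1.eventually (gt_mem_nhds (show (0 : ℝ) < δ / 2 by positivity))).exists
    exact ⟨J, hJ.le⟩
  obtain ⟨X₀, hX₀⟩ := ev_typ J
    (max 1 (max (2 * (2 * |C1| + 5) / ε) (64 * CT * (1 + ε) * (J + 1) / (ε ^ 2 * δ)))) (2 * (C2 + 1))
  refine ⟨X₀, fun X hX => ?_⟩
  obtain ⟨hX1, hLL, hXJ, hXJ2, hy3, hLy⟩ := hX₀ X hX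
  set LL : ℝ := Real.log (Real.log X) with hLLdef
  have hLL1 : 1 ≤ LL := (le_max_left _ _).trans hLL
  have hLL2 : 2 * (2 * |C1| + 5) / ε ≤ LL := ((le_max_left _ _).trans (le_max_right _ _)).trans hLL
  have hLL3 : 64 * CT * (1 + ε) * (J + 1) / (ε ^ 2 * δ) ≤ LL :=
    ((le_max_right _ _).trans (le_max_right _ _)).trans hLL
  have hX0 : 0 < X := by linarith
  set y : ℕ := ⌊X ^ (1 / 5 : ℝ)⌋₊ with hydef
  have hr0 : 0 ≤ X ^ (1 / 5 : ℝ) := Real.rpow_nonneg hX0.le _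
  have hr5 : (X ^ (1 / 5 : ℝ)) ^ 5 = X := by
    rw [← Real.rpow_natCast, ← Real.rpow_mul hX0.le]
    norm_num
  have hy1 : (y : ℝ) ≤ X ^ (1 / 5 : ℝ) := Nat.floor_le hr0
  have hy2 : X ^ (1 / 5 : ℝ) < (y : ℝ) + 1 := Nat.lt_floor_add_one _
  have hy5 : X < ((y : ℝ) + 1) ^ 5 := by
    calc X = (X ^ (1 / 5 : ℝ)) ^ 5 := hr5.symm
      _ < ((y : ℝ) + 1) ^ 5 := pow_lt_pow_left₀ hy2 hr0 (by norm_num)
  set W : ℝ := ∑ p ∈ S4 y, 1 / (p : ℝ) with hWdef
  have hW1 : 1 ≤ W := by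
    have h1 := hC2 y hy3
    have h2 : Real.log (Real.log y) / 2 - C2 ≤ W := h1
    linarith
  have hW2 : W ≤ (1 / 2 + ε / 8) * LL + C1 := by
    have h1 := hC1 y (by omega)
    have h3y : (3 : ℝ) ≤ y := by exact_mod_cast hy3
    have h2 : Real.log (Real.log y) ≤ LL := by
      have h4 : (y : ℝ) ≤ X := by
        refine hy1.trans ?_
        calc X ^ (1 / 5 : ℝ) ≤ X ^ (1 : ℝ) := Real.rpow_le_rpow_of_exponent_le hX1 (by norm_num)
          _ = X := Real.rpow_one X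
      have h5 : 0 < Real.log y := Real.log_pos (by linarith)
      exact Real.log_le_log h5 (Real.log_le_log (by linarith) h4)
    have h3 : W ≤ (1 / 2 + ε / 8) * Real.log (Real.log y) + C1 := h1
    have h4 : (1 / 2 + ε / 8) * Real.log (Real.log y) ≤ (1 / 2 + ε / 8) * LL :=
      mul_le_mul_of_nonneg_left h2 (by positivity)
    linarith
  have hε2 : 2 * |C1| + 5 ≤ ε / 2 * LL := by
    rw [div_le_iff₀ hε] at hLL2
    linarith
  have hC1a := le_abs_self C1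
  have hW3 : 2 * W + 2 * (ε / 8 * LL) ≤ (1 + ε) * LL - 5 := by linarith
  have hW4 : W ≤ (1 + ε) / 2 * LL := by nlinarith
  set BX := (pball X).filter (fun z => (1 + ε) * LL < (((nm z).primeFactors.card : ℕ) : ℝ)) with hBX
  -- one window
  have hwin : ∀ j ∈ range (J + 1),
      ((BX.filter (fun z => z ∈ win (X * Real.exp (-2 - 4 * (j : ℝ))))).card : ℝ) ≤
        CT * W * X / (ε / 8 * LL) ^ 2 := by
    intro j hj
    rw [mem_range] at hj
    apply win_card hTK y _ X (ε / 8 * LL) hX0 (by positivity) _ hW1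
    · intro z hz
      rw [mem_filter, hBX, mem_filter, mem_pball] at hz
      obtain ⟨⟨⟨h1, h2⟩, h3⟩, h4⟩ := hz
      refine ⟨h4, h2, ?_⟩
      have h5 : nm z < (y + 1) ^ 5 := by
        have : ((nm z : ℕ) : ℝ) < (((y + 1) ^ 5 : ℕ) : ℝ) := by
          push_cast
          linarith
        exact_mod_cast this
      have h6 := omega_le h1 y h5
      have h7 : (((nm z).primeFactors.card : ℕ) : ℝ) ≤ (((S4 y).filter (fun p => gp p ∣ z)).card : ℝ) +
          (((S4 y).filter (fun p => star (gp p) ∣ z)).card : ℝ) + 5 := by exact_mod_cast h6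
      rw [← hWdef]
      linarith
    · -- y^4 ≤ Y
      have h1 : (y : ℝ) ^ 4 ≤ (X ^ (1 / 5 : ℝ)) ^ 4 := pow_le_pow_left₀ (by positivity) hy1 4
      have h2 : Real.exp (2 + 4 * (j : ℝ)) ≤ X ^ (1 / 5 : ℝ) := by
        refine le_trans (Real.exp_le_exp.2 ?_) hXJ2
        have : (j : ℝ) ≤ J := by exact_mod_cast (by omega : j ≤ J)
        linarith
      have h3 : X * Real.exp (-2 - 4 * (j : ℝ)) =
          (X ^ (1 / 5 : ℝ)) ^ 4 * (X ^ (1 / 5 : ℝ) * Real.exp (-(2 + 4 * (j : ℝ)))) := by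
        have : (X ^ (1 / 5 : ℝ)) ^ 4 * (X ^ (1 / 5 : ℝ) * Real.exp (-(2 + 4 * (j : ℝ)))) =
          (X ^ (1 / 5 : ℝ)) ^ 5 * Real.exp (-(2 + 4 * (j : ℝ))) := by ring
        rw [this, hr5]
        congr 2
        ring
      rw [h3]
      have h4 : 1 ≤ X ^ (1 / 5 : ℝ) * Real.exp (-(2 + 4 * (j : ℝ))) := by
        rw [Real.exp_neg, ← div_eq_mul_inv, le_div_iff₀ (Real.exp_pos _), one_mul]
        exact h2
      have h5 : 0 ≤ (X ^ (1 / 5 : ℝ)) ^ 4 := by positivity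
      nlinarith
  -- covering
  have hcov : BX ⊆ ball (X * Real.exp (-(4 * ((J : ℝ) + 1)))) ∪
      (range (J + 1)).biUnion (fun j => BX.filter
        (fun z => z ∈ win (X * Real.exp (-2 - 4 * (j : ℝ))))) := by
    intro z hz
    have hz' := hz
    rw [hBX, mem_filter, mem_pball] at hz'
    obtain ⟨⟨h1, h2⟩, _⟩ := hz'
    have hn1 : 1 ≤ nm z := nm_pos (prim_ne_zero h1)
    have hn1R : (1 : ℝ) ≤ nm z := by exact_mod_cast hn1
    rw [mem_union]
    rcases le_or_gt (nm z : ℝ) (X * Real.exp (-(4 * ((J : ℝ) + 1)))) with h3 | h3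
    · left
      exact mem_ball.2 ⟨hn1, h3⟩
    · right
      rw [mem_biUnion]
      set t : ℝ := (Real.log X - Real.log (nm z)) / 4 with ht
      have ht0 : 0 ≤ t := by
        have := Real.log_le_log (by linarith) h2
        rw [ht]; linarith
      have ht1 : t < J + 1 := by
        have h4 := Real.log_lt_log (by positivity) h3
        rw [Real.log_mul (by positivity) (by positivity), Real.log_exp] at h4
        rw [ht]; linarith
      have hj1 : (⌊t⌋₊ : ℝ) ≤ t := Nat.floor_le ht0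
      have hj2 : t < ⌊t⌋₊ + 1 := Nat.lt_floor_add_one t
      refine ⟨⌊t⌋₊, ?_, ?_⟩
      · rw [mem_range]
        have : (⌊t⌋₊ : ℝ) < ((J + 1 : ℕ) : ℝ) := by push_cast; linarith
        exact_mod_cast this
      · rw [mem_filter, mem_win]
        refine ⟨hz, hn1, ?_, ?_⟩
        · rw [mul_div_assoc, ← Real.exp_sub]
          have h4 : X * Real.exp (-2 - 4 * (⌊t⌋₊ : ℝ) - 2) =
              Real.exp (Real.log X + (-2 - 4 * (⌊t⌋₊ : ℝ) - 2)) := by
            rw [Real.exp_add, Real.exp_log hX0]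
          rw [h4, ← Real.le_log_iff_exp_le (by linarith)]
          linarith
        · have h4 : Real.exp 2 * (X * Real.exp (-2 - 4 * (⌊t⌋₊ : ℝ))) =
              Real.exp (Real.log X + (2 + (-2 - 4 * (⌊t⌋₊ : ℝ)))) := by
            rw [Real.exp_add, Real.exp_log hX0, Real.exp_add]
            ring
          rw [h4, ← Real.log_le_iff_le_exp (by linarith)]
          linarith
  have h1 := card_le_card hcov
  have h2 := card_union_le (ball (X * Real.exp (-(4 * ((J : ℝ) + 1)))))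
    ((range (J + 1)).biUnion (fun j => BX.filter
        (fun z => z ∈ win (X * Real.exp (-2 - 4 * (j : ℝ))))))
  have h3 : (((range (J + 1)).biUnion (fun j => BX.filter
        (fun z => z ∈ win (X * Real.exp (-2 - 4 * (j : ℝ)))))).card : ℝ) ≤
      (J + 1) * (CT * W * X / (ε / 8 * LL) ^ 2) := by
    have h4 := card_biUnion_le (s := range (J + 1)) (t := fun j : ℕ => BX.filter
        (fun z => z ∈ win (X * Real.exp (-2 - 4 * (j : ℝ)))))
    have h5 := sum_le_sum hwin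
    rw [sum_const, card_range, nsmul_eq_mul] at h5
    push_cast at h5
    refine le_trans ?_ h5
    exact_mod_cast h4
  have h4 : ((ball (X * Real.exp (-(4 * ((J : ℝ) + 1))))).card : ℝ) ≤ δ / 2 * X := by
    set R : ℝ := X * Real.exp (-(4 * ((J : ℝ) + 1))) with hR
    have hR1 : 1 ≤ R := by
      rw [hR, Real.exp_neg, ← div_eq_mul_inv, le_div_iff₀ (Real.exp_pos _), one_mul]
      exact hXJ
    have h5 := hball R hR1
    have h6 := (abs_le.1 h5).2
    have h7 : Real.sqrt R ≤ R := by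
      rw [Real.sqrt_le_left (by linarith)]
      nlinarith
    have h8 : CL * Real.sqrt R ≤ CL * R := mul_le_mul_of_nonneg_left h7 hCL.le
    have h9 : (Real.pi + CL) * R ≤ δ / 2 * X := by
      have : (Real.pi + CL) * R = (Real.pi + CL) * Real.exp (-(4 * ((J : ℝ) + 1))) * X := by
        rw [hR]; ring
      rw [this]
      exact mul_le_mul_of_nonneg_right hJ hX0.le
    linarith
  have h5 : ((J : ℝ) + 1) * (CT * W * X / (ε / 8 * LL) ^ 2) ≤ δ / 2 * X := by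
    have hLL0 : 0 < LL := by linarith
    have h6 : ((J : ℝ) + 1) * (CT * W * X / (ε / 8 * LL) ^ 2) ≤
        ((J : ℝ) + 1) * (CT * ((1 + ε) / 2 * LL) * X / (ε / 8 * LL) ^ 2) := by
      gcongr
    refine h6.trans ?_
    have h7 : ((J : ℝ) + 1) * (CT * ((1 + ε) / 2 * LL) * X / (ε / 8 * LL) ^ 2) =
        (64 * CT * (1 + ε) * (J + 1) / (ε ^ 2 * δ)) * (δ / 2 * X) / LL := by
      field_simp
      ring
    rw [h7, div_le_iff₀ hLL0]
    have h8 : 0 ≤ δ / 2 * X := by positivity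
    have := mul_le_mul_of_nonneg_right hLL3 h8
    linarith
  have h6 : (BX.card : ℝ) ≤ ((ball (X * Real.exp (-(4 * ((J : ℝ) + 1))))).card : ℝ) +
      (((range (J + 1)).biUnion (fun j => BX.filter
        (fun z => z ∈ win (X * Real.exp (-2 - 4 * (j : ℝ)))))).card : ℝ) := by
    exact_mod_cast h1.trans h2
  linarith

end Pool.Agent.W29.GM

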