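import Pool.Agent.W78.GM.Defs2

/-!
Project GM (helper78), task GP-5: VE.
-/

set_option autoImplicit false

namespace Pool.Agent.W29.GM

open Finset Filter
open Pool.Agent.H376R2.MR Pool.Agent.H970R2.X Pool.Agent.W78.GM

open scoped Classical in
/-- the vectors with a given determinant with `v` -/
noncomputable def nbr (c : ℤ) (X : ℝ) (v : GaussianInt) : Finset GaussianInt :=
  (pball X).filter (fun u => dt v u = c)

theorem nm_sub_le (u u' : GaussianInt) : (nm (u - u') : ℝ) ≤ 2 * nm u + 2 * nm u' := by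
  rw [nm_castR, nm_castR, nm_castR]
  simp only [Zsqrtd.re_sub, Zsqrtd.im_sub]
  push_cast
  nlinarith [sq_nonneg ((u.re : ℝ) + u'.re), sq_nonneg ((u.im : ℝ) + u'.im)]

theorem nbr_card (c : ℤ) {X : ℝ} {v : GaussianInt} (hv : prim v) (hvX : (nm v : ℝ) ≤ X) :
    ((nbr c X v).card : ℝ) ≤ 3 * Real.sqrt (X / nm v) := by
  classical
  have hv0 : (0 : ℝ) < nm v := nm_posR (prim_ne_zero hv)
  have hX1 : 1 ≤ X / nm v := by rw [le_div_iff₀ hv0]; linarith
  have hs1 : 1 ≤ Real.sqrt (X / nm v) := by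
    rw [Real.one_le_sqrt]; exact hX1
  rcases (nbr c X v).eq_empty_or_nonempty with h | hne
  · rw [h, Finset.card_empty, Nat.cast_zero]; linarith
  -- Bezout
  have hcop : IsCoprime v.re v.im := Int.isCoprime_iff_gcd_eq_one.2 hv
  obtain ⟨a, b, hab⟩ := hcop
  set t : GaussianInt → ℤ := fun u => a * u.re + b * u.im with ht
  have hkey : ∀ u ∈ nbr c X v, ∀ u' ∈ nbr c X v, u - u' = ((t u - t u' : ℤ) : GaussianInt) * v := by
    intro u hu u' hu'
    unfold nbr at hu hu'
    rw [mem_filter] at hu hu'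
    have h1 : v.re * u.im - v.im * u.re = c := hu.2
    have h2 : v.re * u'.im - v.im * u'.re = c := hu'.2
    have h3 : v.re * (u.im - u'.im) = v.im * (u.re - u'.re) := by linear_combination h1 - h2
    apply Zsqrtd.ext
    · simp only [Zsqrtd.re_sub, Zsqrtd.re_mul, Zsqrtd.re_intCast, Zsqrtd.im_intCast, ht]
      linear_combination (-(u.re - u'.re)) * hab - b * h3
    · simp only [Zsqrtd.im_sub, Zsqrtd.im_mul, Zsqrtd.re_intCast, Zsqrtd.im_intCast, ht]
      linear_combination (-(u.im - u'.im)) * hab + a * h3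
  have hinj : ∀ u ∈ nbr c X v, ∀ u' ∈ nbr c X v, t u = t u' → u = u' := by
    intro u hu u' hu' h
    have := hkey u hu u' hu'
    rw [h, sub_self, Int.cast_zero, zero_mul] at this
    exact sub_eq_zero.1 this
  obtain ⟨u₀, hu₀, hmin⟩ := Finset.exists_min_image (nbr c X v) t hne
  obtain ⟨u₁, hu₁, hmax⟩ := Finset.exists_max_image (nbr c X v) t hne
  have hle : t u₀ ≤ t u₁ := hmin u₁ hu₁
  have hcard : (nbr c X v).card ≤ (t u₁ + 1 - t u₀).toNat := by
    rw [← Int.card_Icc, ← Finset.card_image_of_injOn (f := t) (s := nbr c X v)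
      (fun u hu u' hu' h => hinj u hu u' hu' h)]
    apply Finset.card_le_card
    intro y hy
    rw [mem_image] at hy
    obtain ⟨u, hu, rfl⟩ := hy
    rw [mem_Icc]
    exact ⟨hmin u hu, hmax u hu⟩
  have hcard' : ((nbr c X v).card : ℝ) ≤ ((t u₁ - t u₀ : ℤ) : ℝ) + 1 := by
    have h1 : ((nbr c X v).card : ℤ) ≤ t u₁ + 1 - t u₀ := by
      have : ((t u₁ + 1 - t u₀).toNat : ℤ) = t u₁ + 1 - t u₀ := Int.toNat_of_nonneg (by omega)
      rw [← this]
      exact_mod_cast hcard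
    have h2 : (((nbr c X v).card : ℤ) : ℝ) ≤ ((t u₁ + 1 - t u₀ : ℤ) : ℝ) := by exact_mod_cast h1
    push_cast at h2 ⊢
    linarith
  have hd : ((t u₁ - t u₀ : ℤ) : ℝ) ≤ 2 * Real.sqrt (X / nm v) := by
    have h1 := hkey u₁ hu₁ u₀ hu₀
    have h2 := nm_sub_le u₁ u₀
    have e1 : (nm u₁ : ℝ) ≤ X := (mem_pball.1 (mem_filter.1 hu₁).1).2
    have e0 : (nm u₀ : ℝ) ≤ X := (mem_pball.1 (mem_filter.1 hu₀).1).2
    rw [h1, nm_mul, nm_intCast] at h2
    push_cast at h2
    have h3 : (((t u₁ - t u₀).natAbs : ℕ) : ℝ) ^ 2 = ((t u₁ - t u₀ : ℤ) : ℝ) ^ 2 := by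
      rw [Nat.cast_natAbs, Int.cast_abs, sq_abs]
    rw [h3] at h2
    have h4 : ((t u₁ - t u₀ : ℤ) : ℝ) ^ 2 ≤ (2 * Real.sqrt (X / nm v)) ^ 2 := by
      rw [mul_pow, Real.sq_sqrt (by positivity), ← mul_div_assoc, le_div_iff₀ hv0]
      push_cast at h2 ⊢
      linarith
    exact (abs_le_of_sq_le_sq' h4 (by positivity)).2
  linarith

/-- the largest coordinate -/
def mx (z : GaussianInt) : ℕ := max z.re.natAbs z.im.natAbs

theorem mx_sq_le (z : GaussianInt) : mx z ^ 2 ≤ nm z := by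
  have h1 := nm_cast z
  have h2 : ((mx z : ℕ) : ℤ) ^ 2 ≤ (nm z : ℤ) := by
    rw [h1]
    unfold mx
    rcases max_choice z.re.natAbs z.im.natAbs with h | h
    · rw [h, Int.natAbs_sq]
      nlinarith [sq_nonneg z.im]
    · rw [h, Int.natAbs_sq]
      nlinarith [sq_nonneg z.re]
  exact_mod_cast h2

theorem mx_pos {z : GaussianInt} (hz : z ≠ 0) : 1 ≤ mx z := by
  by_contra h
  have h0 : mx z = 0 := by omega
  unfold mx at h0
  have h1 : z.re.natAbs = 0 := by
    have := le_max_left z.re.natAbs z.im.natAbs; omega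
  have h2 : z.im.natAbs = 0 := by
    have := le_max_right z.re.natAbs z.im.natAbs; omega
  exact hz (Zsqrtd.ext (Int.natAbs_eq_zero.1 h1) (Int.natAbs_eq_zero.1 h2))

theorem fiber_card (s : Finset GaussianInt) {M : ℕ} (hM : 1 ≤ M) :
    (s.filter (fun z => mx z = M)).card ≤ 12 * M := by
  classical
  have hsub : s.filter (fun z => mx z = M) ⊆
      ((Icc (-(M : ℤ)) M).image (fun y => (⟨M, y⟩ : GaussianInt)) ∪
        (Icc (-(M : ℤ)) M).image (fun y => (⟨-M, y⟩ : GaussianInt))) ∪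
      ((Icc (-(M : ℤ)) M).image (fun x => (⟨x, M⟩ : GaussianInt)) ∪
        (Icc (-(M : ℤ)) M).image (fun x => (⟨x, -M⟩ : GaussianInt))) := by
    intro z hz
    rw [mem_filter] at hz
    obtain ⟨-, hz⟩ := hz
    unfold mx at hz
    have h1 : z.re.natAbs ≤ M := by rw [← hz]; exact le_max_left _ _
    have h2 : z.im.natAbs ≤ M := by rw [← hz]; exact le_max_right _ _
    simp only [mem_union, mem_image, mem_Icc]
    obtain ⟨x, y⟩ := z
    simp only at h1 h2 hz
    rcases max_choice x.natAbs y.natAbs with h | h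
    · rw [h] at hz
      left
      rcases Int.natAbs_eq x with h3 | h3
      · left; exact ⟨y, by omega, by rw [hz] at h3; rw [h3]⟩
      · right; exact ⟨y, by omega, by rw [hz] at h3; rw [h3]⟩
    · rw [h] at hz
      right
      rcases Int.natAbs_eq y with h3 | h3
      · left; exact ⟨x, by omega, by rw [hz] at h3; rw [h3]⟩
      · right; exact ⟨x, by omega, by rw [hz] at h3; rw [h3]⟩
  have hI : (Icc (-(M : ℤ)) M).card = 2 * M + 1 := by
    rw [Int.card_Icc]
    omega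
  have hc : ∀ f : ℤ → GaussianInt, ((Icc (-(M : ℤ)) M).image f).card ≤ 2 * M + 1 := fun f =>
    Finset.card_image_le.trans (le_of_eq hI)
  refine (Finset.card_le_card hsub).trans ?_
  refine (Finset.card_union_le _ _).trans ?_
  refine (add_le_add (Finset.card_union_le _ _) (Finset.card_union_le _ _)).trans ?_
  have h1 := hc (fun y => (⟨M, y⟩ : GaussianInt))
  have h2 := hc (fun y => (⟨-M, y⟩ : GaussianInt))
  have h3 := hc (fun x => (⟨x, M⟩ : GaussianInt))
  have h4 := hc (fun x => (⟨x, -M⟩ : GaussianInt))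
  omega

theorem sum_inv_sqrt (R : ℝ) (s : Finset GaussianInt) (hs : ∀ z ∈ s, z ≠ 0 ∧ (nm z : ℝ) ≤ R) :
    ∑ z ∈ s, 1 / Real.sqrt (nm z) ≤ 12 * Real.sqrt R := by
  classical
  have hmaps : ∀ z ∈ s, mx z ∈ Icc 1 ⌊Real.sqrt R⌋₊ := by
    intro z hz
    obtain ⟨h1, h2⟩ := hs z hz
    rw [mem_Icc]
    refine ⟨mx_pos h1, Nat.le_floor ?_⟩
    apply Real.le_sqrt_of_sq_le
    have := mx_sq_le z
    have h3 : ((mx z : ℕ) : ℝ) ^ 2 ≤ nm z := by exact_mod_cast this
    linarith
  rw [← Finset.sum_fiberwise_of_maps_to hmaps]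
  have h1 : ∀ M ∈ Icc 1 ⌊Real.sqrt R⌋₊,
      ∑ z ∈ s.filter (fun z => mx z = M), 1 / Real.sqrt (nm z) ≤ 12 := by
    intro M hM
    rw [mem_Icc] at hM
    have hM0 : (0 : ℝ) < M := by exact_mod_cast hM.1
    have h2 : ∀ z ∈ s.filter (fun z => mx z = M), 1 / Real.sqrt (nm z) ≤ 1 / (M : ℝ) := by
      intro z hz
      rw [mem_filter] at hz
      apply one_div_le_one_div_of_le hM0
      apply Real.le_sqrt_of_sq_le
      have := mx_sq_le z
      rw [hz.2] at this
      exact_mod_cast this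
    refine (Finset.sum_le_card_nsmul _ _ _ h2).trans ?_
    rw [nsmul_eq_mul, mul_one_div, div_le_iff₀ hM0]
    exact_mod_cast fiber_card s hM.1
  refine (Finset.sum_le_card_nsmul _ _ _ h1).trans ?_
  rw [nsmul_eq_mul, Nat.card_Icc]
  have h3 : ((⌊Real.sqrt R⌋₊ : ℕ) : ℝ) ≤ Real.sqrt R := Nat.floor_le (Real.sqrt_nonneg _)
  have h4 : ((⌊Real.sqrt R⌋₊ + 1 - 1 : ℕ) : ℝ) = (⌊Real.sqrt R⌋₊ : ℝ) := by simp
  rw [h4]
  linarith

theorem nbr_sum (c : ℤ) {κ X : ℝ} (V : Finset GaussianInt) (hκ : 0 < κ) (hX : 1 ≤ X) :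
    ∑ v ∈ V ∩ pball X, ((nbr c X v).card : ℝ) ≤
      36 * (κ * X + ((V ∩ pball X).card : ℝ) / κ) := by
  classical
  have hX0 : 0 < X := by linarith
  have h1 : ∑ v ∈ V ∩ pball X, ((nbr c X v).card : ℝ) ≤
      ∑ v ∈ V ∩ pball X, 3 * Real.sqrt (X / nm v) := by
    refine Finset.sum_le_sum fun v hv => ?_
    obtain ⟨h2, h3⟩ := mem_pball.1 (mem_inter.1 hv).2
    exact nbr_card c h2 h3
  refine h1.trans ?_
  rw [← Finset.sum_filter_add_sum_filter_not (V ∩ pball X) (fun v => (nm v : ℝ) ≤ κ ^ 2 * X)]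
  have h2 : ∑ v ∈ (V ∩ pball X).filter (fun v => (nm v : ℝ) ≤ κ ^ 2 * X),
      3 * Real.sqrt (X / nm v) ≤ 36 * (κ * X) := by
    have h3 := sum_inv_sqrt (κ ^ 2 * X)
      ((V ∩ pball X).filter (fun v => (nm v : ℝ) ≤ κ ^ 2 * X)) (by
        intro z hz
        rw [mem_filter] at hz
        exact ⟨prim_ne_zero (mem_pball.1 (mem_inter.1 hz.1).2).1, hz.2⟩)
    have h4 : ∑ v ∈ (V ∩ pball X).filter (fun v => (nm v : ℝ) ≤ κ ^ 2 * X),
        3 * Real.sqrt (X / nm v) = 3 * Real.sqrt X *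
          ∑ v ∈ (V ∩ pball X).filter (fun v => (nm v : ℝ) ≤ κ ^ 2 * X), 1 / Real.sqrt (nm v) := by
      rw [Finset.mul_sum]
      refine Finset.sum_congr rfl fun v _ => ?_
      rw [Real.sqrt_div hX0.le]
      ring
    rw [h4]
    have h5 : Real.sqrt (κ ^ 2 * X) = κ * Real.sqrt X := by
      rw [Real.sqrt_mul (by positivity), Real.sqrt_sq hκ.le]
    rw [h5] at h3
    have h6 : Real.sqrt X * Real.sqrt X = X := Real.mul_self_sqrt hX0.le
    calc 3 * Real.sqrt X * _ ≤ 3 * Real.sqrt X * (12 * (κ * Real.sqrt X)) :=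
          mul_le_mul_of_nonneg_left h3 (by positivity)
      _ = 36 * (κ * (Real.sqrt X * Real.sqrt X)) := by ring
      _ = 36 * (κ * X) := by rw [h6]
  have h3 : ∑ v ∈ (V ∩ pball X).filter (fun v => ¬ (nm v : ℝ) ≤ κ ^ 2 * X),
      3 * Real.sqrt (X / nm v) ≤ 3 * (((V ∩ pball X).card : ℝ) / κ) := by
    have h4 : ∀ v ∈ (V ∩ pball X).filter (fun v => ¬ (nm v : ℝ) ≤ κ ^ 2 * X),
        3 * Real.sqrt (X / nm v) ≤ 3 / κ := by
      intro v hv
      rw [mem_filter] at hv
      have h5 : κ ^ 2 * X < nm v := not_le.1 hv.2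
      have h6 : (0 : ℝ) < nm v := lt_trans (by positivity) h5
      have h7 : Real.sqrt (X / nm v) ≤ 1 / κ := by
        rw [Real.sqrt_le_left (by positivity), div_pow, one_pow, div_le_div_iff₀ h6 (by positivity)]
        linarith
      calc 3 * Real.sqrt (X / nm v) ≤ 3 * (1 / κ) := by linarith
        _ = 3 / κ := by ring
    refine (Finset.sum_le_card_nsmul _ _ _ h4).trans ?_
    rw [nsmul_eq_mul]
    have h5 : ((((V ∩ pball X).filter (fun v => ¬ (nm v : ℝ) ≤ κ ^ 2 * X)).card : ℕ) : ℝ) ≤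
        ((V ∩ pball X).card : ℝ) := by exact_mod_cast Finset.card_filter_le _ _
    calc _ ≤ ((V ∩ pball X).card : ℝ) * (3 / κ) := mul_le_mul_of_nonneg_right h5 (by positivity)
      _ = 3 * (((V ∩ pball X).card : ℝ) / κ) := by ring
  have h4 : 0 ≤ ((V ∩ pball X).card : ℝ) / κ := by positivity
  linarith

theorem ve : S_VE := by
  classical
  refine ⟨72, by norm_num, fun κ X V hκ _ hX => ?_⟩
  have hsub : (dedge X).filter (fun e => e.1 ∈ V ∨ e.2 ∈ V) ⊆
      (dedge X).filter (fun e => e.1 ∈ V) ∪ (dedge X).filter (fun e => e.2 ∈ V) := by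
    intro e he
    rw [mem_filter] at he
    rw [mem_union, mem_filter, mem_filter]
    rcases he.2 with h | h
    · left; exact ⟨he.1, h⟩
    · right; exact ⟨he.1, h⟩
  have h1 : (((dedge X).filter (fun e => e.1 ∈ V)).card : ℝ) ≤
      36 * (κ * X + ((V ∩ pball X).card : ℝ) / κ) := by
    refine le_trans ?_ (nbr_sum 1 V hκ hX)
    have h2 : ∀ e ∈ (dedge X).filter (fun e => e.1 ∈ V), e.1 ∈ V ∩ pball X := by
      intro e he
      rw [mem_filter] at he
      unfold dedge at he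
      rw [mem_filter, mem_product] at he
      exact mem_inter.2 ⟨he.2, he.1.1.1⟩
    rw [Finset.card_eq_sum_card_fiberwise h2]
    push_cast
    refine Finset.sum_le_sum fun v _ => ?_
    norm_cast
    refine Finset.card_le_card_of_injOn (fun e => e.2) ?_ ?_
    · intro e he
      simp only [coe_filter, Set.mem_ofPred_eq, mem_filter, dedge, mem_product] at he
      simp only [nbr, coe_filter, Set.mem_ofPred_eq]
      obtain ⟨⟨⟨⟨-, h4⟩, h5⟩, -⟩, h6⟩ := he
      exact ⟨h4, by rw [← h6]; exact h5⟩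
    · intro e he f hf hef
      simp only [coe_filter, Set.mem_ofPred_eq] at he hf
      exact Prod.ext (he.2.trans hf.2.symm) hef
  have h2 : (((dedge X).filter (fun e => e.2 ∈ V)).card : ℝ) ≤
      36 * (κ * X + ((V ∩ pball X).card : ℝ) / κ) := by
    refine le_trans ?_ (nbr_sum (-1) V hκ hX)
    have h2 : ∀ e ∈ (dedge X).filter (fun e => e.2 ∈ V), e.2 ∈ V ∩ pball X := by
      intro e he
      rw [mem_filter] at he
      unfold dedge at he
      rw [mem_filter, mem_product] at he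
      exact mem_inter.2 ⟨he.2, he.1.1.2⟩
    rw [Finset.card_eq_sum_card_fiberwise h2]
    push_cast
    refine Finset.sum_le_sum fun v _ => ?_
    norm_cast
    refine Finset.card_le_card_of_injOn (fun e => e.1) ?_ ?_
    · intro e he
      simp only [coe_filter, Set.mem_ofPred_eq, mem_filter, dedge, mem_product] at he
      simp only [nbr, coe_filter, Set.mem_ofPred_eq]
      obtain ⟨⟨⟨⟨h4, -⟩, h5⟩, -⟩, h6⟩ := he
      refine ⟨h4, ?_⟩
      rw [← h6]
      unfold dt at h5 ⊢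
      rw [show e.2.re * e.1.im - e.2.im * e.1.re = -(e.1.re * e.2.im - e.1.im * e.2.re) by ring,
        h5]
      rfl
    · intro e he f hf hef
      simp only [coe_filter, Set.mem_ofPred_eq] at he hf
      exact Prod.ext hef (he.2.trans hf.2.symm)
  have h3 : (((dedge X).filter (fun e => e.1 ∈ V ∨ e.2 ∈ V)).card : ℝ) ≤
      (((dedge X).filter (fun e => e.1 ∈ V)).card : ℝ) +
        (((dedge X).filter (fun e => e.2 ∈ V)).card : ℝ) := by
    exact_mod_cast (Finset.card_le_card hsub).trans (Finset.card_union_le _ _)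
  linarith

end Pool.Agent.W29.GM

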